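import Pool.Agent.U186.DropLin

/-!
# Rank drop loci of matrices with terms of rank one: algebraic independence

The coordinates of the normalised kernel vector and the elements `x e * form e` satisfy only the
linear relations; together with the `x e` with `form e = 0` they generate a purely transcendental
field.
-/

set_option autoImplicit false

open MvPolynomial

namespace Pool.Agent.U186.RD

universe u

variable {E : Type u} [Field E] {a b N : ℕ} (M : Matrix (Fin a) (Fin b) E) (u : Fin N → Fin a → E)
  (v : Fin N → Fin b → E)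

lemma form_map {R S : Type*} [CommRing R] [CommRing S] [Algebra E R] [Algebra E S]
    (φ : R →ₐ[E] S) (w : Fin b → R) (e : Fin N) :
    form v (fun j => φ (w j)) e = φ (form v w e) := by
  simp only [form, map_sum, map_mul, AlgHom.commutes]

lemma mulVec_map {R S : Type*} [CommRing R] [CommRing S] [Algebra E R] [Algebra E S]
    (φ : R →ₐ[E] S) (x : Fin N → R) (w : Fin b → R) (hw : (rmat M u v x).mulVec w = 0) :
    (rmat M u v (fun e => φ (x e))).mulVec (fun j => φ (w j)) = 0 := by
  funext i
  have h1 := congrFun hw i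
  rw [rmat_mulVec] at h1 ⊢
  rw [Pi.zero_apply] at h1 ⊢
  rw [← map_zero φ, ← h1, map_add, map_sum, map_sum]
  congr 1
  · refine Finset.sum_congr rfl fun j _ => ?_
    rw [map_mul, AlgHom.commutes]
  · refine Finset.sum_congr rfl fun e _ => ?_
    rw [map_mul, map_mul, AlgHom.commutes, form_map]

/-- The space spanned by the coordinates of `w` and the `x e * form e`. -/
noncomputable def space {K : Type*} [Field K] [Algebra E K] (x : Fin N → K) (w : Fin b → K) :
    Submodule E K :=
  Submodule.span E (Set.range (Sum.elim w fun e => x e * form v w e))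

section space

variable {K : Type*} [Field K] [Algebra E K] (x : Fin N → K) (w : Fin b → K)

lemma w_mem (j : Fin b) : w j ∈ space v x w := Submodule.subset_span ⟨Sum.inl j, rfl⟩

lemma xform_mem (e : Fin N) : x e * form v w e ∈ space v x w :=
  Submodule.subset_span ⟨Sum.inr e, rfl⟩

lemma form_mem (e : Fin N) : form v w e ∈ space v x w := by
  refine Submodule.sum_mem _ fun j _ => ?_
  rw [← Algebra.smul_def]
  exact Submodule.smul_mem _ _ (w_mem v x w j)

instance : FiniteDimensional E (space v x w) :=
  FiniteDimensional.span_of_finite E (Set.finite_range _)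

end space

lemma exists_fraction (S : Type u) [CommRing S] [IsDomain S] :
    ∃ (F : Type u) (_ : Field F) (_ : Algebra S F), IsFractionRing S F :=
  ⟨FractionRing S, inferInstance, inferInstance, inferInstance⟩

/-- **The algebraic independence.** -/
theorem alg_indep (P : Ideal (MvPolynomial (Fin N) E)) [P.IsPrime]
    (hPm : P ∈ (minors (rmat M u v (X : Fin N → MvPolynomial (Fin N) E))).minimalPrimes)
    (hP0 : P ≠ ⊥) (K : Type u) [Field K] [Algebra E K] [Algebra (MvPolynomial (Fin N) E ⧸ P) K]
    [IsScalarTower E (MvPolynomial (Fin N) E ⧸ P) K] [IsFractionRing (MvPolynomial (Fin N) E ⧸ P) K]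
    (x : Fin N → K) (hx : ∀ e, x e = algebraMap (MvPolynomial (Fin N) E ⧸ P) K
      (Ideal.Quotient.mk P (X e)))
    (w : Fin b → K) (hw : (rmat M u v x).mulVec w = 0) (i₀ : Fin b) (hi : w i₀ = 1) :
    ∃ d : ℕ, Module.finrank E (space v x w) = d + 1 ∧
      ∃ f : (Fin d ⊕ {e : Fin N // form v w e = 0}) → K,
        (∀ e, f (Sum.inr e) = x e) ∧ AlgebraicIndependent E f := by
  classical
  set V := space v x w with hV
  let A := MvPolynomial (Fin N) E ⧸ P
  -- the functional
  have h1V : (1 : K) ∈ V := by rw [← hi]; exact w_mem v x w i₀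
  let one : V := ⟨1, h1V⟩
  have hone : one ≠ 0 := by
    intro h
    exact one_ne_zero (congrArg Subtype.val h)
  obtain ⟨φ₀, hφ₀⟩ : ∃ φ₀ : Module.Dual E V, φ₀ one ≠ 0 := by
    by_contra h
    push Not at h
    exact hone ((Module.forall_dual_apply_eq_zero_iff E one).1 h)
  let lam : V →ₗ[E] E := (φ₀ one)⁻¹ • φ₀
  have hlam : lam one = 1 := by
    change (φ₀ one)⁻¹ • φ₀ one = 1
    rw [smul_eq_mul, inv_mul_cancel₀ hφ₀]
  let W := LinearMap.ker lam
  let d := Module.finrank E W
  have hd : Module.finrank E V = d + 1 := by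
    have h1 := LinearMap.finrank_range_add_finrank_ker lam
    have h2 : LinearMap.range lam = ⊤ := by
      rw [LinearMap.range_eq_top]
      intro c
      exact ⟨c • one, by rw [map_smul, hlam, smul_eq_mul, mul_one]⟩
    rw [h2, finrank_top, Module.finrank_self] at h1
    change 1 + d = _ at h1
    omega
  have hWf : Module.Free E W := Module.Free.of_divisionRing E W
  have hWfin : Module.Finite E W := inferInstance
  let bW := Module.finBasis E W
  let pr : V →ₗ[E] W := LinearMap.codRestrict W (LinearMap.id - (LinearMap.toSpanSingleton E V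
    one).comp lam) (by
      intro y
      rw [LinearMap.mem_ker]
      simp only [LinearMap.sub_apply, LinearMap.id_apply, LinearMap.comp_apply,
        LinearMap.toSpanSingleton_apply, map_sub, map_smul, hlam, smul_eq_mul, mul_one, sub_self])
  have hpr : ∀ y : V, ((pr y : V) : K) = y - algebraMap E K (lam y) := by
    intro y
    change ((y - lam y • one : V) : K) = _
    rw [Submodule.coe_sub, Submodule.coe_smul, Algebra.smul_def]
    change (y : K) - algebraMap E K (lam y) * 1 = _
    rw [mul_one]
  refine ⟨d, hd, Sum.elim (fun i => ((bW i : V) : K)) (fun e => x e), fun e => rfl, ?_⟩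
  let ι : Type := Fin d ⊕ {e : Fin N // form v w e = 0}
  let f : ι → K := Sum.elim (fun i => ((bW i : V) : K)) (fun e => x e)
  let ψ : MvPolynomial ι E →ₐ[E] K := aeval f
  -- the formal elements
  let θ : V →ₗ[E] MvPolynomial ι E := (Algebra.linearMap E (MvPolynomial ι E)).comp lam +
    ∑ i, (LinearMap.toSpanSingleton E (MvPolynomial ι E) (X (Sum.inl i))).comp ((bW.coord i).comp pr)
  have hθ : ∀ y : V, θ y = C (lam y) + ∑ i, C (bW.repr (pr y) i) * X (Sum.inl i) := by
    intro y
    simp only [θ, LinearMap.add_apply, LinearMap.sum_apply, LinearMap.comp_apply,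
      LinearMap.toSpanSingleton_apply, Algebra.linearMap_apply, Module.Basis.coord_apply,
      MvPolynomial.smul_eq_C_mul, MvPolynomial.algebraMap_eq]
    rfl
  have hψθ : ∀ y : V, ψ (θ y) = y := by
    intro y
    rw [hθ, map_add, map_sum]
    have h1 : ∀ i, ψ (C (bW.repr (pr y) i) * X (Sum.inl i)) =
        ((((bW.repr (pr y) i) • (bW i) : W) : V) : K) := by
      intro i
      rw [map_mul]
      change (aeval f (C _) : K) * aeval f (X (Sum.inl i)) = _
      rw [aeval_C, aeval_X, Submodule.coe_smul, Submodule.coe_smul, Algebra.smul_def]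
      rfl
    have h2 : (∑ i, (((bW.repr (pr y) i) • (bW i) : W) : V) : V) = (pr y : V) := by
      rw [← Submodule.coe_sum, bW.sum_repr]
    have h3 : ∑ i, ((((bW.repr (pr y) i) • (bW i) : W) : V) : K) = ((pr y : V) : K) := by
      rw [← Submodule.coe_sum, h2]
    simp only [h1]
    rw [h3, hpr]
    change (aeval f (C _) : K) + _ = _
    rw [aeval_C]
    ring
  have hθ1 : θ one = 1 := by
    have h1 : pr one = 0 := by
      apply Subtype.ext
      apply Subtype.ext
      rw [hpr, hlam, map_one]
      change (1 : K) - 1 = 0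
      rw [sub_self]
    rw [hθ, hlam, h1]
    simp
  have hθb : ∀ i, θ (bW i : V) = X (Sum.inl i) := by
    intro i
    have h1 : lam (bW i : V) = 0 := (bW i).2
    have h2 : pr (bW i : V) = bW i := by
      apply Subtype.ext
      apply Subtype.ext
      rw [hpr, h1, map_zero, sub_zero]
    rw [hθ, h1, h2, C_0, zero_add, bW.repr_self, Finset.sum_eq_single i]
    · simp
    · intro i' _ hi'
      rw [Finsupp.single_eq_of_ne hi', C_0, zero_mul]
    · intro h
      exact absurd (Finset.mem_univ i) h
  let wV : Fin b → V := fun j => ⟨w j, w_mem v x w j⟩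
  let yV : Fin N → V := fun e => ⟨x e * form v w e, xform_mem v x w e⟩
  let lV : Fin N → V := fun e => ⟨form v w e, form_mem v x w e⟩
  have hwV : wV i₀ = one := Subtype.ext hi
  have hlV : ∀ e, lV e = ∑ j, v e j • wV j := by
    intro e
    apply Subtype.ext
    rw [Submodule.coe_sum]
    change form v w e = _
    rw [form]
    refine Finset.sum_congr rfl fun j _ => ?_
    rw [Submodule.coe_smul, Algebra.smul_def]
  have hθl : ∀ e, θ (lV e) = ∑ j, C (v e j) * θ (wV j) := by
    intro e
    rw [hlV, map_sum]
    refine Finset.sum_congr rfl fun j _ => ?_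
    rw [map_smul, MvPolynomial.smul_eq_C_mul]
  -- the localization
  have hker : (RingHom.ker ψ).IsPrime := RingHom.ker_isPrime _
  let S := Localization.AtPrime (RingHom.ker ψ)
  have hSd : IsDomain S := IsLocalization.isDomain_of_le_nonZeroDivisors S
    (Ideal.primeCompl_le_nonZeroDivisors (RingHom.ker ψ))
  have hBS : Function.Injective (algebraMap (MvPolynomial ι E) S) :=
    IsLocalization.injective S (Ideal.primeCompl_le_nonZeroDivisors (RingHom.ker ψ))
  have hunit : ∀ e, form v w e ≠ 0 → IsUnit (algebraMap (MvPolynomial ι E) S (θ (lV e))) := by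
    intro e he
    refine IsLocalization.map_units S (⟨θ (lV e), ?_⟩ : (RingHom.ker ψ).primeCompl)
    intro h
    have h1 : ψ (θ (lV e)) = 0 := h
    rw [hψθ] at h1
    exact he h1
  let ψ' : S →ₐ[E] K := IsLocalization.liftAlgHom (M := (RingHom.ker ψ).primeCompl) (f := ψ)
    (fun y => IsUnit.mk0 _ fun h => y.2 h)
  have hψ' : ∀ y : MvPolynomial ι E, ψ' (algebraMap (MvPolynomial ι E) S y) = ψ y := fun y =>
    IsLocalization.lift_eq (M := (RingHom.ker ψ).primeCompl) _ y
  let xt : Fin N → S := fun e => if h : form v w e = 0 then algebraMap (MvPolynomial ι E) S (X (Sum.inr ⟨e, h⟩)) else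
    algebraMap (MvPolynomial ι E) S (θ (yV e)) * ((hunit e h).unit⁻¹ : Sˣ)
  have hxt0 : ∀ e (h : form v w e = 0), xt e = algebraMap (MvPolynomial ι E) S (X (Sum.inr ⟨e, h⟩)) := fun e h =>
    dif_pos h
  have hxt1 : ∀ e, form v w e ≠ 0 → xt e * algebraMap (MvPolynomial ι E) S (θ (lV e)) =
      algebraMap (MvPolynomial ι E) S (θ (yV e)) := by
    intro e h
    have h1 : xt e = algebraMap (MvPolynomial ι E) S (θ (yV e)) * ((hunit e h).unit⁻¹ : Sˣ) := dif_neg h
    rw [h1, mul_assoc]
    have h2 : (((hunit e h).unit⁻¹ : Sˣ) : S) * algebraMap (MvPolynomial ι E) S (θ (lV e)) = 1 :=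
      (hunit e h).unit.inv_mul
    rw [h2, mul_one]
  have hψx : ∀ e, ψ' (xt e) = x e := by
    intro e
    by_cases h : form v w e = 0
    · rw [hxt0 e h, hψ']
      exact aeval_X f (Sum.inr ⟨e, h⟩)
    · have h1 := congrArg ψ' (hxt1 e h)
      rw [map_mul, hψ', hψ', hψθ, hψθ] at h1
      exact mul_right_cancel₀ h h1
  -- the kernel vector
  let wt : Fin b → S := fun j => algebraMap (MvPolynomial ι E) S (θ (wV j))
  have hformt : ∀ e, form v wt e = algebraMap (MvPolynomial ι E) S (θ (lV e)) := by
    intro e
    rw [hθl, map_sum, form]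
    refine Finset.sum_congr rfl fun j _ => ?_
    rw [map_mul, ← MvPolynomial.algebraMap_eq, ← IsScalarTower.algebraMap_apply E (MvPolynomial ι E) S]
  have hxft : ∀ e, xt e * form v wt e = algebraMap (MvPolynomial ι E) S (θ (yV e)) := by
    intro e
    rw [hformt]
    by_cases h : form v w e = 0
    · have h1 : lV e = 0 := Subtype.ext h
      have h2 : yV e = 0 := Subtype.ext (by
        change x e * form v w e = 0
        rw [h, mul_zero])
      rw [h1, h2, map_zero, map_zero, mul_zero]
    · exact hxt1 e h
  have hwt : (rmat M u v xt).mulVec wt = 0 := by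
    funext i
    rw [rmat_mulVec, Pi.zero_apply]
    have h1 : ∑ j, M i j • wV j + ∑ e, u e i • yV e = 0 := by
      apply Subtype.ext
      rw [Submodule.coe_add, Submodule.coe_sum, Submodule.coe_sum]
      have h2 := congrFun hw i
      rw [rmat_mulVec, Pi.zero_apply] at h2
      rw [Submodule.coe_zero, ← h2]
      congr 1
      · refine Finset.sum_congr rfl fun j _ => ?_
        rw [Submodule.coe_smul, Algebra.smul_def]
      · refine Finset.sum_congr rfl fun e _ => ?_
        rw [Submodule.coe_smul, Algebra.smul_def]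
    have h2 := congrArg (fun y => algebraMap (MvPolynomial ι E) S (θ y)) h1
    simp only [map_add, map_sum, map_smul, map_zero] at h2
    rw [← h2]
    congr 1
    · refine Finset.sum_congr rfl fun j _ => ?_
      rw [MvPolynomial.smul_eq_C_mul, map_mul, ← MvPolynomial.algebraMap_eq,
        ← IsScalarTower.algebraMap_apply E (MvPolynomial ι E) S]
    · refine Finset.sum_congr rfl fun e _ => ?_
      rw [MvPolynomial.smul_eq_C_mul, map_mul, ← MvPolynomial.algebraMap_eq,
        ← IsScalarTower.algebraMap_apply E (MvPolynomial ι E) S, hxft]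
  have hwt1 : wt i₀ = 1 := by
    change algebraMap (MvPolynomial ι E) S (θ (wV i₀)) = 1
    rw [hwV, hθ1, map_one]
  -- the kernel of the evaluation is `P`
  have hprime : (RingHom.ker (aeval xt : MvPolynomial (Fin N) E →ₐ[E] S)).IsPrime :=
    RingHom.ker_isPrime _
  have hmin : minors (rmat M u v (X : Fin N → MvPolynomial (Fin N) E)) ≤
      RingHom.ker (aeval xt : MvPolynomial (Fin N) E →ₐ[E] S) := by
    rw [minors_le_iff]
    intro g
    rw [RingHom.mem_ker]
    have h1 : (aeval xt : MvPolynomial (Fin N) E →ₐ[E] S)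
        ((rmat M u v (X : Fin N → MvPolynomial (Fin N) E)).submatrix g id).det =
        ((rmat M u v xt).submatrix g id).det := by
      have h2 := RingHom.map_det (aeval xt : MvPolynomial (Fin N) E →ₐ[E] S).toRingHom
        ((rmat M u v (X : Fin N → MvPolynomial (Fin N) E)).submatrix g id)
      refine h2.trans ?_
      congr 1
      ext1 i j
      change (aeval xt : MvPolynomial (Fin N) E →ₐ[E] S) (rmat M u v X (g i) j) = _
      simp only [rmat, Matrix.of_apply, Matrix.submatrix_apply, map_add, map_sum, map_mul,
        aeval_X, AlgHom.commutes, id]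
    rw [h1]
    exact det_eq_zero _ _ hwt 1 (fun z hz => by rwa [mul_one] at hz) i₀ hwt1 g
  have hxP : ∀ G : MvPolynomial (Fin N) E, aeval x G = algebraMap A K (Ideal.Quotient.mk P G) := by
    intro G
    have h1 : (aeval x : MvPolynomial (Fin N) E →ₐ[E] K) =
        (IsScalarTower.toAlgHom E A K).comp (Ideal.Quotient.mkₐ E P) := by
      apply MvPolynomial.algHom_ext
      intro e
      rw [aeval_X, hx]
      rfl
    rw [h1]
    rfl
  have hPx : ∀ G : MvPolynomial (Fin N) E, G ∈ P ↔ aeval x G = (0 : K) := by
    intro G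
    rw [hxP, map_eq_zero_iff _ (IsFractionRing.injective A K), Ideal.Quotient.eq_zero_iff_mem]
  have hψa : ∀ G : MvPolynomial (Fin N) E, ψ' (aeval xt G) = aeval x G := by
    intro G
    have h1 : ψ'.comp (aeval xt : MvPolynomial (Fin N) E →ₐ[E] S) = aeval x := by
      apply MvPolynomial.algHom_ext
      intro e
      rw [AlgHom.comp_apply, aeval_X, aeval_X, hψx]
    rw [← h1]
    rfl
  have hQP : RingHom.ker (aeval xt : MvPolynomial (Fin N) E →ₐ[E] S) ≤ P := by
    intro G hG
    rw [hPx, ← hψa, (RingHom.mem_ker.1 hG), map_zero]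
  have hPQ := hPm.2 ⟨hprime, hmin⟩ hQP
  -- the embedding into the field of fractions
  obtain ⟨F, iF, iSF, hSFr⟩ := exists_fraction S
  let iEF : Algebra E F := ((algebraMap S F).comp (algebraMap E S)).toAlgebra
  have tESF : IsScalarTower E S F := IsScalarTower.of_algebraMap_eq fun _ => rfl
  have hSF : Function.Injective (algebraMap S F) := IsFractionRing.injective S F
  let xF : Fin N → F := fun e => algebraMap S F (xt e)
  have hxF : ∀ G : MvPolynomial (Fin N) E, aeval xF G = algebraMap S F (aeval xt G) := by
    intro G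
    have h1 : (aeval xF : MvPolynomial (Fin N) E →ₐ[E] F) =
        (IsScalarTower.toAlgHom E S F).comp (aeval xt) := by
      apply MvPolynomial.algHom_ext
      intro e
      rw [AlgHom.comp_apply, aeval_X, aeval_X]
      rfl
    rw [h1]
    rfl
  have hPF : ∀ G : MvPolynomial (Fin N) E, G ∈ P ↔ aeval xF G = (0 : F) := by
    intro G
    rw [hxF, map_eq_zero_iff _ hSF]
    constructor
    · intro hG
      exact RingHom.mem_ker.1 (hPQ hG)
    · intro hG
      exact hQP (RingHom.mem_ker.2 hG)
  let g : A →ₐ[E] F := Ideal.Quotient.liftₐ P (aeval xF) (fun G hG => (hPF G).1 hG)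
  have hg : Function.Injective g := by
    rw [injective_iff_map_eq_zero]
    intro y hy
    obtain ⟨G, rfl⟩ := Ideal.Quotient.mk_surjective y
    exact Ideal.Quotient.eq_zero_iff_mem.2 ((hPF G).2 hy)
  let j : K →ₐ[E] F := IsFractionRing.liftAlgHom (g := g) hg
  have hjA : ∀ y : A, j (algebraMap A K y) = g y := fun y => IsFractionRing.lift_algebraMap hg y
  have hjx : ∀ e, j (x e) = xF e := by
    intro e
    rw [hx, hjA]
    change aeval xF (X e) = xF e
    rw [aeval_X]
  -- the kernel vectors agree
  let wF : Fin b → F := fun l => algebraMap S F (wt l)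
  have hwF : (rmat M u v xF).mulVec wF = 0 := mulVec_map M u v (IsScalarTower.toAlgHom E S F) xt wt hwt
  have hwj : (rmat M u v xF).mulVec (fun l => j (w l)) = 0 := by
    have h1 := mulVec_map M u v j x w hw
    simp only [hjx] at h1
    exact h1
  have hwF1 : wF i₀ = 1 := by
    change algebraMap S F (wt i₀) = 1
    rw [hwt1, map_one]
  have hdiff : (fun l => wF l - j (w l)) = 0 := by
    refine kernel_line M u v P hPm hP0 xF hPF wF _ hwF ?_ i₀ (by rw [hwF1]; exact one_ne_zero) ?_
    · have h1 : (fun l => wF l - j (w l)) = wF - fun l => j (w l) := rfl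
      rw [h1, Matrix.mulVec_sub, hwF, hwj, sub_zero]
    · rw [hwF1, hi, map_one, sub_self]
  have hjw : ∀ l, j (w l) = algebraMap S F (algebraMap (MvPolynomial ι E) S (θ (wV l))) := by
    intro l
    exact (sub_eq_zero.1 (congrFun hdiff l)).symm
  have hjform : ∀ e, j (form v w e) = algebraMap S F (algebraMap (MvPolynomial ι E) S (θ (lV e))) := by
    intro e
    rw [← form_map]
    simp only [hjw]
    change form v (fun l => (IsScalarTower.toAlgHom E S F) (wt l)) e = _
    rw [form_map, hformt]
    rfl
  have hjV : ∀ y (hy : y ∈ V), j y = algebraMap S F (algebraMap (MvPolynomial ι E) S (θ ⟨y, hy⟩)) := by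
    intro y hy
    induction hy using Submodule.span_induction with
    | mem y h =>
      obtain ⟨l | e, rfl⟩ := h
      · exact hjw l
      · change j (x e * form v w e) = algebraMap S F (algebraMap (MvPolynomial ι E) S (θ (yV e)))
        rw [← hxft, map_mul, map_mul, hjx, hjform, hformt]
    | zero =>
      have : (⟨0, V.zero_mem⟩ : V) = 0 := rfl
      rw [map_zero, this, map_zero, map_zero, map_zero]
    | add y z hy hz ihy ihz =>
      have : (⟨y + z, V.add_mem hy hz⟩ : V) = ⟨y, hy⟩ + ⟨z, hz⟩ := rfl
      rw [map_add, this, map_add, map_add, map_add, ihy, ihz]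
    | smul c y hy ihy =>
      have : (⟨c • y, V.smul_mem c hy⟩ : V) = c • ⟨y, hy⟩ := rfl
      rw [map_smul, this, map_smul, ihy, MvPolynomial.smul_eq_C_mul, map_mul, map_mul,
        ← MvPolynomial.algebraMap_eq, ← IsScalarTower.algebraMap_apply E (MvPolynomial ι E) S,
        ← IsScalarTower.algebraMap_apply E S F, Algebra.smul_def]
  -- the injectivity
  have hjψ : ∀ G : MvPolynomial ι E, j (ψ G) = algebraMap S F (algebraMap (MvPolynomial ι E) S G) := by
    intro G
    have h1 : j.comp ψ = (IsScalarTower.toAlgHom E S F).comp (IsScalarTower.toAlgHom E (MvPolynomial ι E) S) := by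
      apply MvPolynomial.algHom_ext
      rintro (i | e)
      · rw [AlgHom.comp_apply]
        change j (aeval f (X (Sum.inl i))) = algebraMap S F (algebraMap (MvPolynomial ι E) S (X (Sum.inl i)))
        rw [aeval_X, ← hθb]
        exact hjV _ (bW i : V).2
      · rw [AlgHom.comp_apply]
        change j (aeval f (X (Sum.inr e))) = algebraMap S F (algebraMap (MvPolynomial ι E) S (X (Sum.inr e)))
        rw [aeval_X]
        change j (x e.1) = _
        rw [hjx]
        change algebraMap S F (xt e.1) = _
        rw [hxt0 e.1 e.2]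
    have h2 := congrArg (fun q : MvPolynomial ι E →ₐ[E] F => q G) h1
    exact h2
  change AlgebraicIndependent E f
  rw [algebraicIndependent_iff]
  intro G hG
  have h1 : j (ψ G) = 0 := by
    change j (aeval f G) = 0
    rw [hG, map_zero]
  rw [hjψ, map_eq_zero_iff _ hSF, map_eq_zero_iff _ hBS] at h1
  exact h1

end Pool.Agent.U186.RD
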