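import Mathlib

set_option autoImplicit false

/-! Linear algebra for the hypersurfaces `det (M + ∑ e, x e • u e ⊗ v e) = 0`. -/

namespace Pool.Agent.U186.RO

section lin

variable {E K : Type*} [Field E] [Field K] [Algebra E K] {n N : ℕ}

/-- The matrix `M + ∑ e, x e • u e ⊗ v e`. -/
def mat {R : Type*} [CommRing R] [Algebra E R] (M : Matrix (Fin n) (Fin n) E)
    (u v : Fin N → Fin n → E) (x : Fin N → R) : Matrix (Fin n) (Fin n) R :=
  Matrix.of fun i j => algebraMap E R (M i j) + ∑ e, x e * algebraMap E R (u e i * v e j)

/-- The linear forms `v e • w`. -/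
def ell (v : Fin N → Fin n → E) (w : Fin n → K) (e : Fin N) : K :=
  ∑ j, algebraMap E K (v e j) * w j

lemma mat_mulVec {R : Type*} [CommRing R] [Algebra E R] (M : Matrix (Fin n) (Fin n) E)
    (u v : Fin N → Fin n → E) (x : Fin N → R) (w : Fin n → R) (i : Fin n) :
    (mat M u v x).mulVec w i = ∑ j, algebraMap E R (M i j) * w j +
      ∑ e, algebraMap E R (u e i) * (x e * ∑ j, algebraMap E R (v e j) * w j) := by
  rw [Matrix.mulVec, dotProduct]
  simp only [mat, Matrix.of_apply, add_mul, Finset.sum_add_distrib, Finset.sum_mul,
    Finset.mul_sum]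
  congr 1
  rw [Finset.sum_comm]
  refine Finset.sum_congr rfl fun e _ => Finset.sum_congr rfl fun j _ => ?_
  rw [map_mul]
  ring

lemma transpose_mat_mulVec {R : Type*} [CommRing R] [Algebra E R] (M : Matrix (Fin n) (Fin n) E)
    (u v : Fin N → Fin n → E) (x : Fin N → R) (w : Fin n → R) (j : Fin n) :
    (mat M u v x).transpose.mulVec w j = ∑ i, algebraMap E R (M i j) * w i +
      ∑ e, algebraMap E R (v e j) * (x e * ∑ i, algebraMap E R (u e i) * w i) := by
  rw [Matrix.mulVec, dotProduct]
  simp only [mat, Matrix.of_apply, Matrix.transpose_apply, add_mul, Finset.sum_add_distrib,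
    Finset.sum_mul, Finset.mul_sum]
  congr 1
  rw [Finset.sum_comm]
  refine Finset.sum_congr rfl fun e _ => Finset.sum_congr rfl fun j _ => ?_
  rw [map_mul]
  ring

/-- Extension of scalars. -/
noncomputable def sc (F : Type*) [Field F] [Algebra E F] : (Fin n → E) →ₗ[E] (Fin n → F) :=
  (Algebra.linearMap E F).compLeft (Fin n)

@[simp] lemma sc_apply (F : Type*) [Field F] [Algebra E F] (a : Fin n → E) (i : Fin n) :
    sc F a i = algebraMap E F (a i) := rfl

variable (F : Type*) [Field F] [Algebra E F]

lemma finrank_sc_le (W : Submodule E (Fin n → E)) :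
    Module.finrank F (Submodule.span F (sc F '' (W : Set (Fin n → E)))) ≤
      Module.finrank E W := by
  classical
  let b := Module.finBasis E W
  have h1 : Submodule.span F (sc F '' (W : Set (Fin n → E))) ≤
      Submodule.span F (Set.range fun (j : Fin (Module.finrank E W)) =>
        sc F (b j : Fin n → E)) := by
    rw [Submodule.span_le]
    rintro _ ⟨a, ha, rfl⟩
    have h3 : ((∑ j, (b.repr ⟨a, ha⟩ j) • b j : W) : Fin n → E) = a := by rw [b.sum_repr]
    rw [← h3, Submodule.coe_sum, map_sum]
    refine Submodule.sum_mem _ fun j _ => ?_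
    rw [Submodule.coe_smul, map_smul, ← algebraMap_smul F]
    exact Submodule.smul_mem _ _ (Submodule.subset_span ⟨j, rfl⟩)
  refine (Submodule.finrank_mono h1).trans ?_
  refine (finrank_range_le_card _).trans ?_
  rw [Fintype.card_fin]

lemma le_finrank_sc (W : Submodule E (Fin n → E)) :
    Module.finrank E W ≤
      Module.finrank F (Submodule.span F (sc F '' (W : Set (Fin n → E)))) := by
  classical
  obtain ⟨W', hW'⟩ := Submodule.exists_isCompl W
  have h1 := finrank_sc_le F W'
  have h2 : Submodule.span F (sc F '' (W : Set (Fin n → E))) ⊔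
      Submodule.span F (sc F '' (W' : Set (Fin n → E))) = ⊤ := by
    rw [eq_top_iff]
    intro y _
    have hy : y = ∑ i, y i • (sc F (Pi.single i (1 : E)) : Fin n → F) := by
      funext j
      rw [Finset.sum_apply]
      simp only [Pi.smul_apply, sc_apply, smul_eq_mul]
      rw [Finset.sum_eq_single j]
      · simp
      · intro i _ hij
        rw [Pi.single_eq_of_ne (Ne.symm hij), map_zero, mul_zero]
      · intro h
        exact absurd (Finset.mem_univ j) h
    rw [hy]
    refine Submodule.sum_mem _ fun i _ => Submodule.smul_mem _ _ ?_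
    have h3 : (Pi.single i (1 : E) : Fin n → E) ∈ W ⊔ W' := by
      rw [hW'.sup_eq_top]
      exact Submodule.mem_top
    obtain ⟨a, ha, b, hb, hab⟩ := Submodule.mem_sup.1 h3
    rw [← hab, map_add]
    exact Submodule.add_mem_sup (Submodule.subset_span ⟨a, ha, rfl⟩)
      (Submodule.subset_span ⟨b, hb, rfl⟩)
  have h3 := Submodule.finrank_add_le_finrank_add_finrank
    (Submodule.span F (sc F '' (W : Set (Fin n → E))))
    (Submodule.span F (sc F '' (W' : Set (Fin n → E))))
  rw [h2, finrank_top, Module.finrank_fintype_fun_eq_card, Fintype.card_fin] at h3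
  have h4 := Submodule.finrank_add_eq_of_isCompl hW'
  rw [Module.finrank_fintype_fun_eq_card, Fintype.card_fin] at h4
  omega

variable (M : Matrix (Fin n) (Fin n) E) (u v : Fin N → Fin n → E) (x : Fin N → K) (w : Fin n → K)

/-- The relations between the coordinates of `w`. -/
noncomputable def relw : Submodule E (Fin n → E) :=
  LinearMap.ker (Fintype.linearCombination E w : (Fin n → E) →ₗ[E] K)

lemma mem_relw {a : Fin n → E} : a ∈ relw (E := E) w ↔ ∑ i, algebraMap E K (a i) * w i = 0 := by
  rw [relw, LinearMap.mem_ker, Fintype.linearCombination_apply]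
  simp only [Algebra.smul_def]

/-- The vectors `α` orthogonal to the `u e` with `ell e ≠ 0` and such that `α M` is a relation. -/
noncomputable def relu : Submodule E (Fin n → E) where
  carrier := {α | (∀ e, ell v w e ≠ 0 → ∑ i, u e i * α i = 0) ∧
    (fun j => ∑ i, M i j * α i) ∈ relw (E := E) w}
  add_mem' := by
    rintro a b ⟨ha, ha'⟩ ⟨hb, hb'⟩
    refine ⟨fun e he => ?_, ?_⟩
    · simp only [Pi.add_apply, mul_add, Finset.sum_add_distrib, ha e he, hb e he, add_zero]
    · have := (relw (E := E) w).add_mem ha' hb'
      convert this using 1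
      funext j
      simp only [Pi.add_apply, mul_add, Finset.sum_add_distrib]
  zero_mem' := by
    refine ⟨fun e _ => by simp, ?_⟩
    have := (relw (E := E) w).zero_mem
    convert this using 1
    funext j
    simp
  smul_mem' := by
    rintro c a ⟨ha, ha'⟩
    refine ⟨fun e he => ?_, ?_⟩
    · have h : ∑ i, u e i * (c • a) i = c * ∑ i, u e i * a i := by
        rw [Finset.mul_sum]
        refine Finset.sum_congr rfl fun i _ => ?_
        rw [Pi.smul_apply, smul_eq_mul]
        ring
      rw [h, ha e he, mul_zero]
    · have := (relw (E := E) w).smul_mem c ha'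
      convert this using 1
      funext j
      rw [Pi.smul_apply, smul_eq_mul, Finset.mul_sum]
      refine Finset.sum_congr rfl fun i _ => ?_
      rw [Pi.smul_apply, smul_eq_mul]
      ring

/-- If the generic determinant is not zero, then there are at most as many `α` as relations. -/
lemma finrank_relu_le (X : Fin N → F) (hX : (mat M u v X).det ≠ 0) :
    Module.finrank E (relu M u v w) ≤ Module.finrank E (relw (E := E) w) := by
  let T := (mat M u v X).transpose.mulVecLin
  have hT : Function.Injective T := by
    have h1 : IsUnit (mat M u v X).transpose := by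
      rw [Matrix.isUnit_iff_isUnit_det, Matrix.det_transpose]
      exact IsUnit.mk0 _ hX
    exact Matrix.mulVec_injective_iff_isUnit.2 h1
  have hmap : (Submodule.span F (sc F '' (relu M u v w : Set (Fin n → E)))).map T ≤
      Submodule.span F (sc F '' (relw (E := E) w : Set (Fin n → E))) := by
    rw [Submodule.map_span, Submodule.span_le]
    rintro _ ⟨_, ⟨α, hα, rfl⟩, rfl⟩
    have h1 : T (sc F α) = sc F (fun j => ∑ i, M i j * α i) +
        ∑ e, (X e * algebraMap E F (∑ i, u e i * α i)) • sc F (v e) := by
      funext j
      change (mat M u v X).transpose.mulVec (sc F α) j = _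
      rw [transpose_mat_mulVec, Pi.add_apply, Finset.sum_apply]
      congr 1
      · simp only [sc_apply, map_sum, map_mul]
      · refine Finset.sum_congr rfl fun e _ => ?_
        simp only [sc_apply, map_sum, map_mul, Pi.smul_apply, smul_eq_mul]
        ring
    rw [h1]
    refine Submodule.add_mem _ (Submodule.subset_span ⟨_, hα.2, rfl⟩) ?_
    refine Submodule.sum_mem _ fun e _ => ?_
    by_cases he : ell v w e = 0
    · exact Submodule.smul_mem _ _ (Submodule.subset_span ⟨v e, (mem_relw w).2 he, rfl⟩)
    · rw [hα.1 e he, map_zero, mul_zero, zero_smul]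
      exact Submodule.zero_mem _
  have h2 := Submodule.finrank_mono hmap
  have h3 := (Submodule.equivMapOfInjective T hT
    (Submodule.span F (sc F '' (relu M u v w : Set (Fin n → E))))).finrank_eq
  have h4 := le_finrank_sc F (relu M u v w)
  have h5 := finrank_sc_le F (relw (E := E) w)
  omega

open Classical in
/-- The dimension of the space generated by the coordinates of `w` and the `x e * ell e`. -/
lemma finrank_V (hw : (mat M u v x).mulVec w = 0)
    (hrel : Module.finrank E (relu M u v w) ≤ Module.finrank E (relw (E := E) w)) :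
    Module.finrank E (Submodule.span E (Set.range (Sum.elim w
      fun e : {e : Fin N // ell v w e ≠ 0} => x e * ell v w e))) ≤
        Fintype.card {e : Fin N // ell v w e ≠ 0} := by
  set S := {e : Fin N // ell v w e ≠ 0} with hS
  set f : Fin n ⊕ S → K := Sum.elim w fun e : S => x e * ell v w e with hf
  let L : (Fin n ⊕ S → E) →ₗ[E] K := Fintype.linearCombination E f
  have h1 : Submodule.span E (Set.range f) = LinearMap.range L :=
    (Fintype.range_linearCombination E _).symm
  have hL : ∀ a, L a = ∑ i, algebraMap E K (a (Sum.inl i)) * w i +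
      ∑ e : S, algebraMap E K (a (Sum.inr e)) * (x e * ell v w e) := by
    intro a
    simp only [L, Fintype.linearCombination_apply, Fintype.sum_sum_type, Algebra.smul_def, f,
      Sum.elim_inl, Sum.elim_inr]
  -- the relations
  let Θ : (relw (E := E) w × (Fin n → E)) →ₗ[E] (Fin n ⊕ S → E) :=
    { toFun := fun q => Sum.elim (fun j => (q.1 : Fin n → E) j + ∑ i, M i j * q.2 i)
        (fun e => ∑ i, u e i * q.2 i)
      map_add' := by
        intro q q'
        funext t
        rcases t with j | e
        · simp only [Sum.elim_inl, Prod.fst_add, Prod.snd_add, Pi.add_apply, mul_add,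
            Finset.sum_add_distrib, Submodule.coe_add]
          ring
        · simp only [Sum.elim_inr, Prod.snd_add, Pi.add_apply, mul_add, Finset.sum_add_distrib]
      map_smul' := by
        intro c q
        funext t
        rcases t with j | e
        · simp only [Sum.elim_inl, Prod.smul_fst, Prod.smul_snd, Pi.smul_apply, smul_eq_mul,
            Submodule.coe_smul, RingHom.id_apply, mul_add, Finset.mul_sum]
          congr 1
          exact Finset.sum_congr rfl fun i _ => by ring
        · simp only [Sum.elim_inr, Prod.smul_snd, Pi.smul_apply, smul_eq_mul, RingHom.id_apply,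
            Finset.mul_sum]
          exact Finset.sum_congr rfl fun i _ => by ring }
  have hrow : ∀ i, ∑ j, algebraMap E K (M i j) * w j +
      ∑ e : S, algebraMap E K (u e i) * (x e * ell v w e) = 0 := by
    intro i
    have h4 := congrFun hw i
    rw [mat_mulVec] at h4
    change _ + ∑ e, algebraMap E K (u e i) * (x e * ell v w e) = 0 at h4
    rw [← Finset.sum_filter_add_sum_filter_not Finset.univ (fun e => ell v w e ≠ 0)] at h4
    have h5 : ∑ e ∈ Finset.univ.filter (fun e => ¬ (ell v w e ≠ 0)),
        algebraMap E K (u e i) * (x e * ell v w e) = 0 := by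
      refine Finset.sum_eq_zero fun e he => ?_
      have h6 := (Finset.mem_filter.1 he).2
      rw [not_not] at h6
      rw [h6, mul_zero, mul_zero]
    rw [h5, add_zero] at h4
    refine Eq.trans ?_ h4
    congr 1
    exact (Finset.sum_subtype (p := fun e => ell v w e ≠ 0)
      (Finset.univ.filter fun e => ell v w e ≠ 0)
      (fun e => by rw [Finset.mem_filter]; exact ⟨fun h => h.2, fun h => ⟨Finset.mem_univ e, h⟩⟩)
      (fun e => algebraMap E K (u e i) * (x e * ell v w e))).symm
  have h2 : LinearMap.range Θ ≤ LinearMap.ker L := by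
    rintro _ ⟨q, rfl⟩
    rw [LinearMap.mem_ker, hL]
    change ∑ i, algebraMap E K ((q.1 : Fin n → E) i + ∑ i', M i' i * q.2 i') * w i +
      ∑ e : S, algebraMap E K (∑ i, u e i * q.2 i) * (x e * ell v w e) = 0
    have e1 := (mem_relw w).1 q.1.2
    have e2 : ∑ i, algebraMap E K ((q.1 : Fin n → E) i + ∑ i', M i' i * q.2 i') * w i +
      ∑ e : S, algebraMap E K (∑ i, u e i * q.2 i) * (x e * ell v w e) =
      ∑ i, algebraMap E K ((q.1 : Fin n → E) i) * w i + ∑ i, algebraMap E K (q.2 i) *
        (∑ j, algebraMap E K (M i j) * w j +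
          ∑ e : S, algebraMap E K (u e i) * (x e * ell v w e)) := by
      simp only [map_add, map_sum, map_mul, add_mul, Finset.sum_add_distrib, mul_add,
        Finset.sum_mul, Finset.mul_sum]
      rw [add_assoc]
      congr 1
      congr 1
      · rw [Finset.sum_comm]
        refine Finset.sum_congr rfl fun i _ => Finset.sum_congr rfl fun j _ => ?_
        ring
      · rw [Finset.sum_comm]
        refine Finset.sum_congr rfl fun i _ => Finset.sum_congr rfl fun j _ => ?_
        ring
    rw [e2, e1, zero_add]
    exact Finset.sum_eq_zero fun i _ => by rw [hrow i, mul_zero]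
  -- the kernel of `Θ`
  have h3 : Module.finrank E (LinearMap.ker Θ) ≤ Module.finrank E (relu M u v w) := by
    let g : LinearMap.ker Θ →ₗ[E] (relu M u v w) :=
      LinearMap.codRestrict (relu M u v w)
        ((LinearMap.snd E (relw (E := E) w) (Fin n → E)).comp (LinearMap.ker Θ).subtype) (by
        rintro ⟨q, hq⟩
        have hq' : Θ q = 0 := hq
        refine ⟨fun e he => congrFun hq' (Sum.inr ⟨e, he⟩), ?_⟩
        have h5 : (fun j => ∑ i, M i j * q.2 i) = - (q.1 : Fin n → E) := by
          funext j
          have h6 : (q.1 : Fin n → E) j + ∑ i, M i j * q.2 i = 0 := congrFun hq' (Sum.inl j)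
          rw [Pi.neg_apply]
          exact eq_neg_of_add_eq_zero_right h6
        change (fun j => ∑ i, M i j * q.2 i) ∈ relw (E := E) w
        rw [h5]
        exact (relw (E := E) w).neg_mem q.1.2)
    refine LinearMap.finrank_le_finrank_of_injective (f := g) ?_
    rw [injective_iff_map_eq_zero]
    rintro ⟨q, hq⟩ h
    have hq' : Θ q = 0 := hq
    have h5 : q.2 = 0 := congrArg Subtype.val h
    have h6 : q.1 = 0 := by
      apply Subtype.ext
      funext j
      have h7 : (q.1 : Fin n → E) j + ∑ i, M i j * q.2 i = 0 := congrFun hq' (Sum.inl j)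
      rw [h5] at h7
      simpa using h7
    apply Subtype.ext
    exact Prod.ext h6 h5
  have h4 := LinearMap.finrank_range_add_finrank_ker Θ
  rw [Module.finrank_prod, Module.finrank_fintype_fun_eq_card, Fintype.card_fin] at h4
  have h5 := Submodule.finrank_mono h2
  have h6 := LinearMap.finrank_range_add_finrank_ker L
  rw [Module.finrank_fintype_fun_eq_card, Fintype.card_sum, Fintype.card_fin] at h6
  rw [h1]
  have h7 : Fintype.card S = Fintype.card {e : Fin N // ell v w e ≠ 0} :=
    Fintype.card_congr (Equiv.refl _)
  omega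

end lin

section trdeg

universe u

variable {E K : Type u} [Field E] [Field K] [Algebra E K]

/-- If `K` is algebraic over the field generated by a finite family which satisfies a nontrivial
algebraic relation, then the transcendence degree is smaller than the number of its members. -/
lemma trdeg_lt_of_rel' {ι : Type} [Fintype ι] (f : ι → K)
    (hgen : Algebra.IsAlgebraic (IntermediateField.adjoin E (Set.range f)) K)
    (P : MvPolynomial ι E) (hP : P ≠ 0) (ha : MvPolynomial.aeval f P = 0) :
    Algebra.trdeg E K < Fintype.card ι := by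
  by_contra hcon
  rw [not_lt] at hcon
  have halg : Algebra.IsAlgebraic (Algebra.adjoin E (Set.range f)) K := by
    rw [← IntermediateField.isAlgebraic_adjoin_iff_top]
    exact hgen
  have h1 : IsTranscendenceBasis E f := by
    refine Algebra.IsAlgebraic.isTranscendenceBasis_of_lift_le_trdeg_of_finite E f ?_
    rw [Cardinal.mk_fintype, Cardinal.lift_natCast]
    simpa using hcon
  exact hP (algebraicIndependent_iff.1 h1.1 P ha)

lemma isAlgebraic_of_eq_top {L : IntermediateField E K} (h : L = ⊤) : Algebra.IsAlgebraic L K := by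
  subst h
  constructor
  intro z
  exact isAlgebraic_algebraMap (⟨z, IntermediateField.mem_top⟩ : (⊤ : IntermediateField E K))

lemma trdeg_lt_of_rel {ι : Type} [Fintype ι] (f : ι → K)
    (hgen : IntermediateField.adjoin E (Set.range f) = ⊤)
    (P : MvPolynomial ι E) (hP : P ≠ 0) (ha : MvPolynomial.aeval f P = 0) :
    Algebra.trdeg E K < Fintype.card ι :=
  trdeg_lt_of_rel' f (isAlgebraic_of_eq_top hgen) P hP ha

/-- If `K` is algebraic over the field generated by finitely many finite dimensional subspaces one
of which contains `1`, then the transcendence degree is smaller than the sum of their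
dimensions. -/
lemma trdeg_lt_sum {m : ℕ} (V : Fin m → Submodule E K) [∀ s, FiniteDimensional E (V s)]
    (hgen : Algebra.IsAlgebraic (IntermediateField.adjoin E (⋃ s, (V s : Set K))) K)
    (s₀ : Fin m) (h1 : (1 : K) ∈ V s₀) :
    Algebra.trdeg E K < ((∑ s, Module.finrank E (V s) : ℕ) : Cardinal.{u}) := by
  classical
  let b := fun s => Module.finBasis E (V s)
  let f : (Σ s, Fin (Module.finrank E (V s))) → K := fun q => b q.1 q.2
  have hc : Fintype.card (Σ s, Fin (Module.finrank E (V s))) = ∑ s, Module.finrank E (V s) := by
    rw [Fintype.card_sigma]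
    simp
  have hexp : ∀ s, ∀ y : V s, (y : K) = ∑ i, algebraMap E K ((b s).repr y i) * f ⟨s, i⟩ := by
    intro s y
    have h2 : ((∑ i, (b s).repr y i • b s i : V s) : K) = y := by rw [(b s).sum_repr y]
    refine h2.symm.trans ?_
    rw [Submodule.coe_sum]
    refine Finset.sum_congr rfl fun i _ => ?_
    rw [Submodule.coe_smul, Algebra.smul_def]
  have hgen' : IntermediateField.adjoin E (Set.range f) =
      IntermediateField.adjoin E (⋃ s, (V s : Set K)) := by
    apply le_antisymm
    · rw [IntermediateField.adjoin_le_iff]
      rintro _ ⟨q, rfl⟩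
      exact IntermediateField.subset_adjoin _ _ (Set.mem_iUnion.2 ⟨q.1, (b q.1 q.2).2⟩)
    · rw [IntermediateField.adjoin_le_iff]
      intro y hy
      obtain ⟨s, hs⟩ := Set.mem_iUnion.1 hy
      have h2 := hexp s ⟨y, hs⟩
      change y = _ at h2
      rw [h2]
      refine sum_mem fun i _ => mul_mem (IntermediateField.algebraMap_mem _ _) ?_
      exact IntermediateField.subset_adjoin _ _ ⟨⟨s, i⟩, rfl⟩
  rw [← hgen'] at hgen
  have h3 := trdeg_lt_of_rel' f hgen
    (∑ i, MvPolynomial.C ((b s₀).repr ⟨1, h1⟩ i) * MvPolynomial.X ⟨s₀, i⟩ - 1) ?_ ?_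
  · rw [hc] at h3
    exact h3
  · intro h
    have h4 := congrArg (MvPolynomial.coeff 0) h
    rw [MvPolynomial.coeff_sub, MvPolynomial.coeff_sum, MvPolynomial.coeff_zero] at h4
    simp at h4
  · rw [map_sub, map_sum, map_one]
    simp only [map_mul, MvPolynomial.aeval_C, MvPolynomial.aeval_X]
    rw [← hexp s₀ ⟨1, h1⟩, sub_self]

end trdeg

end Pool.Agent.U186.RO
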