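import Pool.Agent.U186.DropMain
import Pool.Agent.U186.RankOneLin

/-!
# Rank drop loci: the components
-/

set_option autoImplicit false

universe u

open AlgebraicGeometry CategoryTheory Pool.Agent.W558 MvPolynomial

namespace Pool.Agent.U186.RD

/-- Contractions of minimal primes along integral extensions of normal domains. -/
lemma comap_minimalPrimes {R S : Type*} [CommRing R] [CommRing S] [IsDomain S]
    [IsIntegrallyClosed R] (φ : R →+* S) (hφ : Function.Injective φ) (hint : φ.IsIntegral)
    (I : Ideal R) (P : Ideal S) (hP : P ∈ (I.map φ).minimalPrimes) :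
    P.comap φ ∈ I.minimalPrimes := by
  let _ : Algebra R S := φ.toAlgebra
  have h1 : FaithfulSMul R S := (faithfulSMul_iff_algebraMap_injective R S).2 hφ
  have h2 : Algebra.IsIntegral R S := ⟨fun x => hint x⟩
  have hPp : P.IsPrime := hP.1.1
  refine ⟨⟨Ideal.IsPrime.comap φ, ?_⟩, ?_⟩
  · rw [← Ideal.map_le_iff_le_comap]
    exact hP.1.2
  · rintro Q ⟨hQp, hQ⟩ hle
    have h3 : (P.comap φ).IsPrime := Ideal.IsPrime.comap φ
    have h4 : P.LiesOver (P.comap φ) := ⟨rfl⟩
    obtain ⟨Q', hQ', hQ'p, hQ'o⟩ := Ideal.exists_ideal_le_liesOver_of_le (p := Q)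
      (q := P.comap φ) P hle
    have h5 : I.map φ ≤ Q' := by
      rw [Ideal.map_le_iff_le_comap]
      have : Q = Q'.comap φ := hQ'o.over
      rw [← this]
      exact hQ
    have h6 := hP.2 ⟨hQ'p, h5⟩ hQ'
    have : Q = Q'.comap φ := hQ'o.over
    rw [this]
    exact Ideal.comap_mono h6

section powers

variable {E : Type u} [Field E] {N : ℕ} (m : Fin N → ℕ)

/-- The homomorphism `X e ↦ X e ^ m e`. -/
noncomputable def pw : MvPolynomial (Fin N) E →ₐ[E] MvPolynomial (Fin N) E :=
  aeval fun e => X e ^ m e

lemma pw_monomial (s : Fin N →₀ ℕ) (c : E) :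
    pw m (monomial s c) = monomial (Finsupp.equivFunOnFinite.symm fun e => m e * s e) c := by
  rw [pw, aeval_monomial, MvPolynomial.algebraMap_eq]
  rw [MvPolynomial.monomial_eq (s := Finsupp.equivFunOnFinite.symm fun e => m e * s e)]
  congr 1
  rw [Finsupp.prod_fintype, Finsupp.prod_fintype]
  · refine Finset.prod_congr rfl fun e _ => ?_
    rw [← pow_mul]
    rfl
  · intro i
    rw [pow_zero]
  · intro i
    rw [pow_zero]

lemma pw_injective (hm : ∀ e, 0 < m e) : Function.Injective (pw (E := E) m) := by
  have key : ∀ (G : MvPolynomial (Fin N) E) (s : Fin N →₀ ℕ),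
      coeff (Finsupp.equivFunOnFinite.symm fun e => m e * s e) (pw m G) = coeff s G := by
    intro G s
    induction G using MvPolynomial.induction_on' with
    | monomial s' c =>
      rw [pw_monomial, coeff_monomial, coeff_monomial]
      by_cases h : s' = s
      · rw [if_pos h, if_pos (by rw [h])]
      · rw [if_neg h, if_neg]
        intro h1
        apply h
        ext e
        have h2 := congrArg (fun q : Fin N →₀ ℕ => q e) h1
        change m e * s' e = m e * s e at h2
        exact Nat.eq_of_mul_eq_mul_left (hm e) h2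
    | add p q hp hq =>
      rw [map_add, coeff_add, coeff_add, hp, hq]
  rw [injective_iff_map_eq_zero]
  intro G hG
  ext s
  rw [← key G s, hG, coeff_zero, coeff_zero]

lemma pw_isIntegral (hm : ∀ e, 0 < m e) : (pw (E := E) m).toRingHom.IsIntegral := by
  intro G
  induction G using MvPolynomial.induction_on with
  | C c =>
    have h : C c = (pw (E := E) m).toRingHom (C c) := by
      change C c = pw m (C c)
      rw [pw, aeval_C, MvPolynomial.algebraMap_eq]
    rw [h]
    exact RingHom.isIntegralElem_map _
  | add p q hp hq => exact hp.add _ hq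
  | mul_X p e hp =>
    refine hp.mul _ ?_
    have h : (X e : MvPolynomial (Fin N) E) ^ m e = (pw (E := E) m).toRingHom (X e) := by
      change _ = pw m (X e)
      rw [pw, aeval_X]
    refine ⟨Polynomial.X ^ m e - Polynomial.C (X e), Polynomial.monic_X_pow_sub_C _ (hm e).ne', ?_⟩
    rw [Polynomial.eval₂_sub, Polynomial.eval₂_pow, Polynomial.eval₂_X, Polynomial.eval₂_C, h,
      sub_self]

end powers

section comp

variable {E : Type u} [Field E] {a b N : ℕ} (M : Matrix (Fin a) (Fin b) E) (u : Fin N → Fin a → E)
  (v : Fin N → Fin b → E) (m : Fin N → ℕ)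

lemma map_rmat {R S : Type*} [CommRing R] [CommRing S] [Algebra E R] [Algebra E S]
    (φ : R →ₐ[E] S) (x : Fin N → R) :
    (rmat M u v x).map φ = rmat M u v (fun e => φ (x e)) := by
  ext1 i j
  simp only [rmat, Matrix.of_apply, Matrix.map_apply, map_add, map_sum, map_mul, AlgHom.commutes]

lemma map_det {R S : Type*} [CommRing R] [CommRing S] [Algebra E R] [Algebra E S]
    (φ : R →ₐ[E] S) (x : Fin N → R) (f : Fin b → Fin a) :
    φ ((rmat M u v x).submatrix f id).det =
      ((rmat M u v (fun e => φ (x e))).submatrix f id).det := by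
  rw [← map_rmat M u v φ x]
  exact RingHom.map_det φ.toRingHom _

lemma map_minors {R S : Type*} [CommRing R] [CommRing S] [Algebra E R] [Algebra E S]
    (φ : R →ₐ[E] S) (x : Fin N → R) :
    (minors (rmat M u v x)).map φ.toRingHom = minors (rmat M u v (fun e => φ (x e))) := by
  rw [minors, minors, Ideal.map_span, ← Set.range_comp]
  congr 2
  funext f
  exact map_det M u v φ x f

/-- **The transcendence degree and the normalised kernel vector.** -/
theorem comp_data (hm : ∀ e, 0 < m e)
    (hI : minors (rmat M u v (fun e => (X e : MvPolynomial (Fin N) E) ^ m e)) ≠ ⊥)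
    (P : Ideal (MvPolynomial (Fin N) E))
    (hPm : P ∈ (minors (rmat M u v
      (fun e => (X e : MvPolynomial (Fin N) E) ^ m e))).minimalPrimes)
    (K : Type u) [Field K] [Algebra E K] (t : Fin N → K)
    (hgen : IntermediateField.adjoin E (Set.range t) = ⊤)
    (hP : ∀ G : MvPolynomial (Fin N) E, G ∈ P ↔ aeval t G = (0 : K)) :
    ∃ (w : Fin b → K) (i₀ : Fin b), w i₀ = 1 ∧ (∀ e, form v w e = 0 → t e ≠ 0) ∧
      Algebra.trdeg E K + 1 = ((Module.finrank E (space v (fun e => t e ^ m e) w) +
        Nat.card {e : Fin N // form v w e = 0} : ℕ) : Cardinal.{u}) := by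
  classical
  set x : Fin N → K := fun e => t e ^ m e with hx
  have hPp : P.IsPrime := hPm.1.1
  -- the contraction
  let Px : Ideal (MvPolynomial (Fin N) E) := P.comap (pw (E := E) m).toRingHom
  have hPxp : Px.IsPrime := Ideal.IsPrime.comap _
  have hmap : (minors (rmat M u v (X : Fin N → MvPolynomial (Fin N) E))).map
      (pw (E := E) m).toRingHom =
      minors (rmat M u v (fun e => (X e : MvPolynomial (Fin N) E) ^ m e)) := by
    rw [map_minors]
    congr 2
    funext e
    rw [pw, aeval_X]
  have hPxm : Px ∈ (minors (rmat M u v (X : Fin N → MvPolynomial (Fin N) E))).minimalPrimes := by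
    refine comap_minimalPrimes (pw (E := E) m).toRingHom (pw_injective m hm)
      (pw_isIntegral m hm) _ P ?_
    rw [hmap]
    exact hPm
  have hPx0 : Px ≠ ⊥ := by
    intro h
    apply hI
    rw [← hmap]
    have h1 : minors (rmat M u v (X : Fin N → MvPolynomial (Fin N) E)) ≤ ⊥ := by
      rw [← h]
      exact hPxm.1.2
    rw [le_bot_iff.1 h1, Ideal.map_bot]
  have haev : ∀ G : MvPolynomial (Fin N) E, aeval t (pw m G) = aeval x G := by
    intro G
    have h1 : (aeval t : MvPolynomial (Fin N) E →ₐ[E] K).comp (pw m) = aeval x := by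
      apply MvPolynomial.algHom_ext
      intro e
      rw [AlgHom.comp_apply, pw, aeval_X, aeval_X, map_pow, aeval_X]
    rw [← h1]
    rfl
  have hPx : ∀ G : MvPolynomial (Fin N) E, G ∈ Px ↔ aeval x G = (0 : K) := by
    intro G
    rw [← haev, ← hP]
    rfl
  -- the field of fractions
  let A := MvPolynomial (Fin N) E ⧸ Px
  let K₀ := FractionRing A
  let x₀ : Fin N → K₀ := fun e => algebraMap A K₀ (Ideal.Quotient.mk Px (X e))
  let g : A →ₐ[E] K := Ideal.Quotient.liftₐ Px (aeval x) (fun G hG => (hPx G).1 hG)
  have hg : Function.Injective g := by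
    rw [injective_iff_map_eq_zero]
    intro y hy
    obtain ⟨G, rfl⟩ := Ideal.Quotient.mk_surjective y
    exact Ideal.Quotient.eq_zero_iff_mem.2 ((hPx G).2 hy)
  let σ : K₀ →ₐ[E] K := IsFractionRing.liftAlgHom (g := g) hg
  have hσA : ∀ y : A, σ (algebraMap A K₀ y) = g y := fun y => IsFractionRing.lift_algebraMap hg y
  have hσx : ∀ e, σ (x₀ e) = x e := by
    intro e
    change σ (algebraMap A K₀ (Ideal.Quotient.mk Px (X e))) = _
    rw [hσA]
    change aeval x (X e) = x e
    rw [aeval_X]
  have hσ : Function.Injective σ := σ.toRingHom.injective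
  -- the kernel vector
  have haev0 : ∀ G : MvPolynomial (Fin N) E, aeval x₀ G = algebraMap A K₀ (Ideal.Quotient.mk Px G) := by
    intro G
    have h1 : (aeval x₀ : MvPolynomial (Fin N) E →ₐ[E] K₀) =
        (IsScalarTower.toAlgHom E A K₀).comp (Ideal.Quotient.mkₐ E Px) := by
      apply MvPolynomial.algHom_ext
      intro e
      rw [aeval_X]
      rfl
    rw [h1]
    rfl
  obtain ⟨w', hw'0, hw'⟩ := exists_kernel (rmat M u v x₀) (by
    intro f
    have h1 := map_det M u v (aeval x₀ : MvPolynomial (Fin N) E →ₐ[E] K₀) X f
    simp only [aeval_X] at h1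
    rw [← h1, haev0]
    have h2 : ((rmat M u v (X : Fin N → MvPolynomial (Fin N) E)).submatrix f id).det ∈ Px :=
      (minors_le_iff _ _).1 hPxm.1.2 f
    rw [Ideal.Quotient.eq_zero_iff_mem.2 h2, map_zero])
  obtain ⟨i₀, hi₀⟩ : ∃ i, w' i ≠ 0 := by
    by_contra h
    push Not at h
    exact hw'0 (funext h)
  set w₀ : Fin b → K₀ := (w' i₀)⁻¹ • w' with hw₀
  have hw : (rmat M u v x₀).mulVec w₀ = 0 := by
    rw [hw₀, Matrix.mulVec_smul, hw', smul_zero]
  have hwi : w₀ i₀ = 1 := by
    rw [hw₀, Pi.smul_apply, smul_eq_mul, inv_mul_cancel₀ hi₀]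
  obtain ⟨d, hd, f, hfe, hf⟩ := alg_indep M u v Px hPxm hPx0 K₀ x₀ (fun e => rfl) w₀ hw i₀ hwi
  -- transport to `K`
  let w : Fin b → K := fun j => σ (w₀ j)
  have hform : ∀ e, form v w e = σ (form v w₀ e) := fun e => form_map v σ w₀ e
  have hform0 : ∀ e, form v w e = 0 ↔ form v w₀ e = 0 := by
    intro e
    rw [hform, map_eq_zero_iff _ hσ]
  have hspace : space v x w = (space v x₀ w₀).map σ.toLinearMap := by
    rw [space, space, Submodule.map_span, ← Set.range_comp]
    congr 2
    funext q
    rcases q with j | e
    · rfl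
    · change x e * form v w e = σ (x₀ e * form v w₀ e)
      rw [hform, map_mul, hσx]
  have hfin : Module.finrank E (space v x w) = d + 1 := by
    rw [hspace, ← hd]
    exact (LinearEquiv.finrank_eq (Submodule.equivMapOfInjective σ.toLinearMap hσ _)).symm
  have hcard : Fintype.card {e : Fin N // form v w e = 0} =
      Fintype.card {e : Fin N // form v w₀ e = 0} :=
    Fintype.card_congr (Equiv.subtypeEquivRight hform0)
  refine ⟨w, i₀, by change σ (w₀ i₀) = 1; rw [hwi, map_one], ?_, ?_⟩
  · intro e he h0
    have h1 := hf.ne_zero (Sum.inr ⟨e, (hform0 e).1 he⟩)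
    rw [hfe] at h1
    apply h1
    apply hσ
    change σ (x₀ e) = σ 0
    rw [hσx, map_zero, hx]
    change t e ^ m e = 0
    rw [h0, zero_pow (hm e).ne']
  · -- the lower bound
    have hlow : ((d + Fintype.card {e : Fin N // form v w₀ e = 0} : ℕ) : Cardinal.{u}) ≤
        Algebra.trdeg E K := by
      have h1 := (hf.map' (f := σ) hσ).lift_cardinalMk_le_trdeg
      rw [Cardinal.mk_fintype, Cardinal.lift_natCast, Fintype.card_sum, Fintype.card_fin] at h1
      simpa using h1
    -- the upper bound
    have hup : Algebra.trdeg E K < ((d + 1 + Fintype.card {e : Fin N // form v w₀ e = 0} : ℕ) :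
        Cardinal.{u}) := by
      let z : Fin N → K := fun e => if form v w e = 0 then x e else 0
      let V : Fin (1 + N) → Submodule E K := Fin.addCases (fun _ => space v x w)
        fun e => Submodule.span E {z e}
      have hV1 : ∀ e : Fin N, V (Fin.natAdd 1 e) = Submodule.span E {z e} := by
        intro e
        exact Fin.addCases_right (motive := fun _ => Submodule E K) e
      have hV0 : ∀ i : Fin 1, V (Fin.castAdd N i) = space v x w := by
        intro i
        exact Fin.addCases_left (motive := fun _ => Submodule E K) i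
      have hVfd : ∀ s, FiniteDimensional E (V s) := by
        intro s
        induction s using Fin.addCases with
        | left i => rw [hV0]; infer_instance
        | right e => rw [hV1]; exact FiniteDimensional.span_of_finite E (Set.finite_singleton _)
      have halg : Algebra.IsAlgebraic (IntermediateField.adjoin E (⋃ s, (V s : Set K))) K := by
        set L := IntermediateField.adjoin E (⋃ s, (V s : Set K)) with hL
        have hsub : ∀ s, ∀ y ∈ V s, y ∈ L := fun s y hy =>
          IntermediateField.subset_adjoin _ _ (Set.mem_iUnion.2 ⟨s, hy⟩)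
        have hxL : ∀ e, x e ∈ L := by
          intro e
          by_cases h : form v w e = 0
          · refine hsub (Fin.natAdd 1 e) _ ?_
            rw [hV1]
            have : z e = x e := if_pos h
            rw [this]
            exact Submodule.mem_span_singleton_self _
          · have h2 : x e = (x e * form v w e) * (form v w e)⁻¹ := by field_simp
            rw [h2]
            refine mul_mem (hsub (Fin.castAdd N 0) _ ?_) (inv_mem (hsub (Fin.castAdd N 0) _ ?_))
            · rw [hV0]
              exact xform_mem v x w e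
            · rw [hV0]
              exact form_mem v x w e
        have h1 : ∀ e, IsAlgebraic L (t e) := by
          intro e
          refine IsAlgebraic.of_pow (hm e) ?_
          exact isAlgebraic_algebraMap (⟨x e, hxL e⟩ : L)
        have h2 : ∀ y : K, IsAlgebraic L y := by
          intro y
          have hy : y ∈ IntermediateField.adjoin E (Set.range t) := by rw [hgen]; trivial
          induction hy using IntermediateField.adjoin_induction with
          | mem y hy =>
            obtain ⟨e, rfl⟩ := hy
            exact h1 e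
          | algebraMap c => exact isAlgebraic_algebraMap (⟨_, L.algebraMap_mem c⟩ : L)
          | add y z _ _ hy hz => exact hy.add hz
          | inv y _ hy => exact hy.inv
          | mul y z _ _ hy hz => exact hy.mul hz
        exact ⟨h2⟩
      have h1V : (1 : K) ∈ V (Fin.castAdd N 0) := by
        rw [hV0]
        have : w i₀ = 1 := by change σ (w₀ i₀) = 1; rw [hwi, map_one]
        rw [← this]
        exact w_mem v x w i₀
      refine (Pool.Agent.U186.RO.trdeg_lt_sum V halg (Fin.castAdd N 0) h1V).trans_le ?_
      rw [Fin.sum_univ_add, Fin.sum_univ_one, hV0, hfin]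
      have h3 : ∑ e, Module.finrank E (V (Fin.natAdd 1 e)) ≤
          Fintype.card {e : Fin N // form v w₀ e = 0} := by
        rw [← hcard, Fintype.card_subtype, Finset.card_filter]
        refine Finset.sum_le_sum fun e _ => ?_
        rw [hV1]
        split_ifs with h
        · refine (finrank_span_le_card ({z e} : Set K)).trans ?_
          simp
        · have : z e = 0 := if_neg h
          rw [this]
          simp
      exact_mod_cast Nat.add_le_add_left h3 _
    obtain ⟨τ, hτ⟩ := Cardinal.lt_aleph0.1 (hup.trans Cardinal.natCast_lt_aleph0)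
    rw [hτ] at hlow hup ⊢
    rw [hfin, Nat.card_eq_fintype_card, hcard]
    have h1 : d + Fintype.card {e : Fin N // form v w₀ e = 0} ≤ τ := by exact_mod_cast hlow
    have h2 : τ < d + 1 + Fintype.card {e : Fin N // form v w₀ e = 0} := by exact_mod_cast hup
    have h3 : τ + 1 = d + 1 + Fintype.card {e : Fin N // form v w₀ e = 0} := by omega
    exact_mod_cast h3

end comp

end Pool.Agent.U186.RD
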