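import Mathlib

/-!
# Rank drop loci of matrices with terms of rank one: the kernel is a line

`P` is a prime ideal of `E[X]`, minimal over the ideal of the maximal minors of the matrix
`M + ∑ e, X e • u e ⊗ v e`. At a point with the vanishing ideal `P` the kernel is a line.
-/

set_option autoImplicit false

open MvPolynomial

namespace Pool.Agent.U186.RD

section basic

variable {E R : Type*} [CommRing E] [CommRing R] [Algebra E R] {a b N : ℕ}

/-- The matrix `M + ∑ e, x e • u e ⊗ v e`. -/
noncomputable def rmat (M : Matrix (Fin a) (Fin b) E) (u : Fin N → Fin a → E)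
    (v : Fin N → Fin b → E) (x : Fin N → R) : Matrix (Fin a) (Fin b) R :=
  Matrix.of fun i j => algebraMap E R (M i j) + ∑ e, x e * algebraMap E R (u e i * v e j)

/-- The linear form of `w` given by `v e`. -/
noncomputable def form (v : Fin N → Fin b → E) (w : Fin b → R) (e : Fin N) : R :=
  ∑ j, algebraMap E R (v e j) * w j

variable (M : Matrix (Fin a) (Fin b) E) (u : Fin N → Fin a → E) (v : Fin N → Fin b → E)

lemma rmat_mulVec (x : Fin N → R) (w : Fin b → R) (i : Fin a) :
    (rmat M u v x).mulVec w i = ∑ j, algebraMap E R (M i j) * w j +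
      ∑ e, algebraMap E R (u e i) * (x e * form v w e) := by
  simp only [Matrix.mulVec, dotProduct, rmat, Matrix.of_apply, add_mul, Finset.sum_add_distrib,
    Finset.sum_mul, form, map_mul, Finset.mul_sum]
  congr 1
  rw [Finset.sum_comm]
  refine Finset.sum_congr rfl fun e _ => Finset.sum_congr rfl fun j _ => ?_
  ring

/-- The ideal of the maximal minors (of the number of columns). -/
noncomputable def minors (A : Matrix (Fin a) (Fin b) R) : Ideal R :=
  Ideal.span (Set.range fun f : Fin b → Fin a => (A.submatrix f id).det)

lemma minors_le_iff (A : Matrix (Fin a) (Fin b) R) (I : Ideal R) :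
    minors A ≤ I ↔ ∀ f : Fin b → Fin a, (A.submatrix f id).det ∈ I := by
  rw [minors, Ideal.span_le]
  constructor
  · intro h f
    exact h ⟨f, rfl⟩
  · rintro h _ ⟨f, rfl⟩
    exact h f

/-- If there is a kernel vector with a coordinate one, then the maximal minors are zero. -/
lemma det_eq_zero (A : Matrix (Fin a) (Fin b) R) (w : Fin b → R) (hw : A.mulVec w = 0)
    (r : R) (hr : ∀ z : R, z * r = 0 → z = 0) (i₀ : Fin b) (hi : w i₀ = r)
    (f : Fin b → Fin a) :
    (A.submatrix f id).det = 0 := by
  apply hr
  have h1 : (A.submatrix f id).mulVec w = 0 := by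
    funext i
    exact congrFun hw (f i)
  have h2 : ((A.submatrix f id).adjugate * A.submatrix f id).mulVec w = 0 := by
    rw [← Matrix.mulVec_mulVec, h1, Matrix.mulVec_zero]
  rw [Matrix.adjugate_mul, Matrix.smul_mulVec, Matrix.one_mulVec] at h2
  have h3 := congrFun h2 i₀
  rw [Pi.smul_apply, hi, smul_eq_mul] at h3
  exact h3

end basic

section field

variable {K : Type*} [Field K] {a b : ℕ}

/-- A matrix whose maximal minors vanish has a kernel vector. -/
lemma exists_kernel (A : Matrix (Fin a) (Fin b) K)
    (h : ∀ f : Fin b → Fin a, (A.submatrix f id).det = 0) :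
    ∃ w : Fin b → K, w ≠ 0 ∧ A.mulVec w = 0 := by
  by_contra hcon
  push Not at hcon
  have hinj : Function.Injective A.mulVecLin := by
    rw [← LinearMap.ker_eq_bot, LinearMap.ker_eq_bot']
    intro w hw
    by_contra h0
    exact hcon w h0 hw
  have hrank : A.rank = b := by
    rw [Matrix.rank]
    have h1 := LinearMap.finrank_range_of_inj hinj
    rw [h1, Module.finrank_fintype_fun_eq_card, Fintype.card_fin]
  have hspan : Submodule.span K (Set.range A.row) = ⊤ := by
    apply Submodule.eq_top_of_finrank_eq
    rw [← Matrix.rank_eq_finrank_span_row, hrank, Module.finrank_fintype_fun_eq_card,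
      Fintype.card_fin]
  obtain ⟨κ, g, hg, h1, h2⟩ := exists_linearIndependent' K A.row
  rw [hspan] at h1
  have hκ : Finite κ := Finite.of_injective g hg
  let _ : Fintype κ := Fintype.ofFinite κ
  have hcard : Fintype.card κ = b := by
    have h3 := finrank_span_eq_card h2
    rw [h1, finrank_top, Module.finrank_fintype_fun_eq_card, Fintype.card_fin] at h3
    exact h3.symm
  let e : Fin b ≃ κ := (Fintype.equivFinOfCardEq hcard).symm
  have h3 : LinearIndependent K (A.submatrix (g ∘ e) id).row := h2.comp e e.injective
  have h4 := (Matrix.isUnit_iff_isUnit_det _).1 (Matrix.linearIndependent_rows_iff_isUnit.1 h3)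
  exact h4.ne_zero (h _)

end field

section stable

variable {E : Type*} [Field E] {N : ℕ}

/-- The translation of one coordinate by a variable. -/
noncomputable def tr (e : Fin N) :
    MvPolynomial (Fin N) E →ₐ[E] Polynomial (MvPolynomial (Fin N) E) :=
  aeval fun e' => Polynomial.C (X e') + if e' = e then Polynomial.X else 0

lemma eval_tr {K : Type*} [CommRing K] [Algebra E K] (y : Fin N → K) (e : Fin N) (c : K)
    (G : MvPolynomial (Fin N) E) :
    Polynomial.eval₂ ((aeval y : MvPolynomial (Fin N) E →ₐ[E] K) : MvPolynomial (Fin N) E →+* K) c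
      (tr e G) = aeval (fun e' => y e' + if e' = e then c else 0) G := by
  let f : MvPolynomial (Fin N) E →+* K := (Polynomial.eval₂RingHom
    ((aeval y : MvPolynomial (Fin N) E →ₐ[E] K) : MvPolynomial (Fin N) E →+* K) c).comp
    (tr e : MvPolynomial (Fin N) E →ₐ[E] Polynomial (MvPolynomial (Fin N) E)).toRingHom
  have h : f = (aeval (fun e' => y e' + if e' = e then c else 0) :
      MvPolynomial (Fin N) E →ₐ[E] K).toRingHom := by
    apply MvPolynomial.ringHom_ext
    · intro r
      change Polynomial.eval₂ _ c (tr e (C r)) = aeval _ (C r)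
      rw [tr, aeval_C, aeval_C, IsScalarTower.algebraMap_apply E (MvPolynomial (Fin N) E)
        (Polynomial (MvPolynomial (Fin N) E)), Polynomial.algebraMap_eq, Polynomial.eval₂_C]
      change aeval y (algebraMap E (MvPolynomial (Fin N) E) r) = _
      rw [AlgHom.commutes]
    · intro e'
      change Polynomial.eval₂ _ c (tr e (X e')) = aeval _ (X e')
      rw [tr, aeval_X, aeval_X, Polynomial.eval₂_add, Polynomial.eval₂_C]
      congr 1
      · change aeval y (X e') = y e'
        rw [aeval_X]
      · split_ifs
        · rw [Polynomial.eval₂_X]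
        · rw [Polynomial.eval₂_zero]
  exact congrArg (fun g : MvPolynomial (Fin N) E →+* K => g G) h

/-- If the coefficients of the translates of the elements of `P` are in `P`, then all points are
zeros of `P`, if there is one. -/
lemma aeval_eq_zero_of_translates {S : Type*} [CommRing S] [Algebra E S]
    (P : Ideal (MvPolynomial (Fin N) E)) (h1 : ∀ e, ∀ G ∈ P, ∀ i, (tr e G).coeff i ∈ P)
    (y : Fin N → S) (hy : ∀ G ∈ P, aeval y G = 0) (z : Fin N → S) :
    ∀ G ∈ P, aeval z G = 0 := by
  classical
  have h2 : ∀ (y : Fin N → S),
      (∀ G ∈ P, aeval y G = 0) → ∀ (e : Fin N) (c : S), ∀ G ∈ P,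
      aeval (fun e' => y e' + if e' = e then c else 0) G = 0 := by
    intro y hy e c G hG
    rw [← eval_tr, Polynomial.eval₂_eq_sum_range]
    refine Finset.sum_eq_zero fun i _ => ?_
    have : ((aeval y : MvPolynomial (Fin N) E →ₐ[E] S) : MvPolynomial (Fin N) E →+* S)
        ((tr e G).coeff i) = 0 := hy _ (h1 e G hG i)
    rw [this, zero_mul]
  have h3 : ∀ (z : Fin N → S) (s : Finset (Fin N)), ∀ G ∈ P,
      aeval (fun e' => y e' + if e' ∈ s then z e' else 0) G = 0 := by
    intro z s
    induction s using Finset.induction_on with
    | empty =>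
      intro G hG
      simpa using hy G hG
    | insert e s hes ih =>
      intro G hG
      have h4 := h2 (fun e' => y e' + if e' ∈ s then z e' else 0) ih e (z e) G hG
      have h6 : (fun e' => y e' + if e' ∈ insert e s then z e' else 0) =
          fun e' => (y e' + if e' ∈ s then z e' else 0) + if e' = e then z e else 0 := by
        funext e'
        by_cases h5 : e' = e
        · subst h5
          simp [hes]
        · simp [h5]
      rw [h6]
      exact h4
  intro G hG
  have h5 := h3 (fun e => z e - y e) Finset.univ G hG
  have h6 : (fun e' => y e' + if e' ∈ (Finset.univ : Finset (Fin N)) then z e' - y e' else 0) =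
      z := by
    funext e'
    simp
  rw [h6] at h5
  exact h5

/-- A prime ideal such that the translates of its generic point in all directions are points of the
same variety is zero. -/
theorem eq_bot_of_translates {K : Type*} [Field K] [Algebra E K] (x : Fin N → K)
    (P : Ideal (MvPolynomial (Fin N) E))
    (hP : ∀ G : MvPolynomial (Fin N) E, G ∈ P ↔ aeval x G = (0 : K))
    (h : ∀ e, ∀ G ∈ P, aeval (fun e' => Polynomial.C (x e') + if e' = e then Polynomial.X else 0)
      G = (0 : Polynomial K)) : P = ⊥ := by
  -- the coefficients of the translates are in `P`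
  have h1 : ∀ e, ∀ G ∈ P, ∀ i, (tr e G).coeff i ∈ P := by
    intro e G hG i
    rw [hP]
    have h2 := h e G hG
    have h3 : Polynomial.map ((aeval x : MvPolynomial (Fin N) E →ₐ[E] K) :
        MvPolynomial (Fin N) E →+* K) (tr e G) = 0 := by
      rw [← h2]
      let f : MvPolynomial (Fin N) E →+* Polynomial K := (Polynomial.mapRingHom
        ((aeval x : MvPolynomial (Fin N) E →ₐ[E] K) : MvPolynomial (Fin N) E →+* K)).comp
        (tr e : MvPolynomial (Fin N) E →ₐ[E] Polynomial (MvPolynomial (Fin N) E)).toRingHom
      have h : f = (aeval (fun e' => Polynomial.C (x e') + if e' = e then Polynomial.X else 0) :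
          MvPolynomial (Fin N) E →ₐ[E] Polynomial K).toRingHom := by
        apply MvPolynomial.ringHom_ext
        · intro r
          change Polynomial.map _ (tr e (C r)) = aeval _ (C r)
          rw [tr, aeval_C, aeval_C, IsScalarTower.algebraMap_apply E (MvPolynomial (Fin N) E)
            (Polynomial (MvPolynomial (Fin N) E)), Polynomial.algebraMap_eq, Polynomial.map_C]
          change Polynomial.C (aeval x (algebraMap E (MvPolynomial (Fin N) E) r)) = _
          rw [AlgHom.commutes, IsScalarTower.algebraMap_apply E K (Polynomial K),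
            Polynomial.algebraMap_eq]
        · intro e'
          change Polynomial.map _ (tr e (X e')) = aeval _ (X e')
          rw [tr, aeval_X, aeval_X, Polynomial.map_add, Polynomial.map_C]
          congr 1
          · change Polynomial.C (aeval x (X e')) = _
            rw [aeval_X]
          · split_ifs
            · rw [Polynomial.map_X]
            · rw [Polynomial.map_zero]
      exact congrArg (fun g : MvPolynomial (Fin N) E →+* Polynomial K => g G) h
    have h4 := congrArg (fun q => Polynomial.coeff q i) h3
    rw [Polynomial.coeff_zero] at h4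
    have h5 : (Polynomial.map ((aeval x : MvPolynomial (Fin N) E →ₐ[E] K) :
        MvPolynomial (Fin N) E →+* K) (tr e G)).coeff i =
        aeval x ((tr e G).coeff i) := Polynomial.coeff_map _ _
    rw [← h5]
    exact h4
  rw [eq_bot_iff]
  intro G hG
  have h0 : ∀ G ∈ P, constantCoeff G = 0 := by
    intro G hG
    have h5 := aeval_eq_zero_of_translates P h1 x (fun G hG => (hP G).1 hG) 0 G hG
    rw [aeval_zero] at h5
    exact (map_eq_zero_iff _ (algebraMap E K).injective).1 h5
  have h6 := aeval_eq_zero_of_translates (S := MvPolynomial (Fin N) E) P h1 0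
    (fun G hG => by rw [aeval_zero, h0 G hG, map_zero]) X G hG
  rw [aeval_X_left, AlgHom.id_apply] at h6
  exact h6

end stable

section line

variable {E : Type*} [Field E] {a b N : ℕ} (M : Matrix (Fin a) (Fin b) E) (u : Fin N → Fin a → E)
  (v : Fin N → Fin b → E)

/-- **The kernel is a line.** -/
theorem kernel_line (P : Ideal (MvPolynomial (Fin N) E))
    (hPm : P ∈ (minors (rmat M u v (X : Fin N → MvPolynomial (Fin N) E))).minimalPrimes)
    (hP0 : P ≠ ⊥) {K : Type*} [Field K] [Algebra E K] (x : Fin N → K)
    (hP : ∀ G : MvPolynomial (Fin N) E, G ∈ P ↔ aeval x G = (0 : K))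
    (w w' : Fin b → K) (hw : (rmat M u v x).mulVec w = 0) (hw' : (rmat M u v x).mulVec w' = 0)
    (i₀ : Fin b) (hi : w i₀ ≠ 0) (hi' : w' i₀ = 0) : w' = 0 := by
  classical
  by_contra hne
  apply hP0
  apply eq_bot_of_translates x P hP
  intro e G hG
  set y : Fin N → Polynomial K := fun e' => Polynomial.C (x e') +
    if e' = e then Polynomial.X else 0 with hy
  have hker1 : ∀ H : MvPolynomial (Fin N) E, aeval y H = (0 : Polynomial K) → aeval x H = 0 := by
    intro H hH
    have h1 : (Polynomial.evalRingHom (0 : K)).comp
        (aeval y : MvPolynomial (Fin N) E →ₐ[E] Polynomial K).toRingHom =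
        (aeval x : MvPolynomial (Fin N) E →ₐ[E] K).toRingHom := by
      apply MvPolynomial.ringHom_ext
      · intro r
        change Polynomial.eval 0 (aeval y (C r)) = aeval x (C r)
        rw [aeval_C, aeval_C, IsScalarTower.algebraMap_apply E K (Polynomial K),
          Polynomial.algebraMap_eq, Polynomial.eval_C]
      · intro e'
        change Polynomial.eval 0 (aeval y (X e')) = aeval x (X e')
        rw [aeval_X, aeval_X, hy]
        simp only [Polynomial.eval_add, Polynomial.eval_C]
        split_ifs <;> simp
    have h2 := congrArg (fun g : MvPolynomial (Fin N) E →+* K => g H) h1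
    change Polynomial.eval 0 (aeval y H) = aeval x H at h2
    rw [← h2, hH, Polynomial.eval_zero]
  -- a kernel vector over the polynomials
  obtain ⟨z, hz0, hz, hze⟩ : ∃ z : Fin b → K, z ≠ 0 ∧ (rmat M u v x).mulVec z = 0 ∧
      form v z e = 0 := by
    have hlin : ∀ (c d : K) (z z' : Fin b → K), form v (c • z + d • z') e =
        c * form v z e + d * form v z' e := by
      intro c d z z'
      simp only [form, Pi.add_apply, Pi.smul_apply, smul_eq_mul, Finset.mul_sum,
        ← Finset.sum_add_distrib]
      refine Finset.sum_congr rfl fun j _ => ?_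
      ring
    by_cases h1 : form v w' e = 0
    · exact ⟨w', hne, hw', h1⟩
    · refine ⟨form v w' e • w + (-form v w e) • w', ?_, ?_, ?_⟩
      · intro h2
        have h3 := congrFun h2 i₀
        rw [Pi.add_apply, Pi.smul_apply, Pi.smul_apply, hi', smul_zero, add_zero, Pi.zero_apply,
          smul_eq_mul] at h3
        exact (mul_ne_zero h1 hi) h3
      · rw [Matrix.mulVec_add, Matrix.mulVec_smul, Matrix.mulVec_smul, hw, hw', smul_zero,
          smul_zero, add_zero]
      · rw [hlin]
        ring
  obtain ⟨j₀, hj₀⟩ : ∃ j, z j ≠ 0 := by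
    by_contra h
    push Not at h
    exact hz0 (funext h)
  have hform : ∀ e', form v (fun j => Polynomial.C (z j)) e' = Polynomial.C (form v z e') := by
    intro e'
    simp only [form, map_sum, map_mul]
    refine Finset.sum_congr rfl fun j _ => ?_
    rw [IsScalarTower.algebraMap_apply E K (Polynomial K), Polynomial.algebraMap_eq]
  have hzy : (rmat M u v y).mulVec (fun j => Polynomial.C (z j)) = 0 := by
    funext i
    rw [rmat_mulVec, Pi.zero_apply]
    have h1 := congrFun hz i
    rw [rmat_mulVec, Pi.zero_apply] at h1
    have h2 := congrArg (Polynomial.C : K →+* Polynomial K) h1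
    rw [map_zero, map_add, map_sum, map_sum] at h2
    rw [← h2]
    congr 1
    · refine Finset.sum_congr rfl fun j _ => ?_
      rw [map_mul, IsScalarTower.algebraMap_apply E K (Polynomial K), Polynomial.algebraMap_eq]
    · refine Finset.sum_congr rfl fun e' _ => ?_
      rw [map_mul, map_mul, IsScalarTower.algebraMap_apply E K (Polynomial K),
        Polynomial.algebraMap_eq, hform, hy]
      by_cases h3 : e' = e
      · subst h3
        rw [hze, map_zero]
        ring
      · simp only [if_neg h3, add_zero]
  -- the kernel of the evaluation at `y` contains the minors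
  have hprime : (RingHom.ker (aeval y : MvPolynomial (Fin N) E →ₐ[E] Polynomial K)).IsPrime :=
    RingHom.ker_isPrime _
  have hmin : minors (rmat M u v (X : Fin N → MvPolynomial (Fin N) E)) ≤
      RingHom.ker (aeval y : MvPolynomial (Fin N) E →ₐ[E] Polynomial K) := by
    rw [minors_le_iff]
    intro f
    rw [RingHom.mem_ker]
    have h1 : (aeval y : MvPolynomial (Fin N) E →ₐ[E] Polynomial K)
        ((rmat M u v (X : Fin N → MvPolynomial (Fin N) E)).submatrix f id).det =
        ((rmat M u v y).submatrix f id).det := by
      have h2 := RingHom.map_det (aeval y : MvPolynomial (Fin N) E →ₐ[E] Polynomial K).toRingHom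
        ((rmat M u v (X : Fin N → MvPolynomial (Fin N) E)).submatrix f id)
      refine h2.trans ?_
      congr 1
      ext1 i j
      change (aeval y : MvPolynomial (Fin N) E →ₐ[E] Polynomial K) (rmat M u v X (f i) j) = _
      simp only [rmat, Matrix.of_apply, Matrix.submatrix_apply, map_add, map_sum, map_mul,
        aeval_X, AlgHom.commutes, id]
    rw [h1]
    refine det_eq_zero _ _ hzy (Polynomial.C (z j₀)) ?_ j₀ rfl f
    intro q hq
    rcases mul_eq_zero.1 hq with h | h
    · exact h
    · exact absurd (Polynomial.C_eq_zero.1 h) hj₀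
  have hle := hPm.2 ⟨hprime, hmin⟩ (fun H hH => (hP H).2 (hker1 H hH))
  exact hle hG

end line

end Pool.Agent.U186.RD
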