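import Pool.Agent.W558.T3.PLF

/-!
The smooth charts of the resolutions of `Pool.Agent.W558.plf_main` (products of linear forms). The
proof is that of `plf_main`.
-/

set_option autoImplicit false

universe u

open AlgebraicGeometry CategoryTheory Pool.Agent.W558

namespace Pool.Agent.U186.RD

/-- The resolution of the affine varieties whose coordinate ring is generated by monomials. -/
theorem plf_LM (p : ℕ) [Fact p.Prime] (k E K A : Type u) [Field k] [PerfectField k] [CharP k p]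
    [Field E] [Algebra k E] (hE : (Algebra.trdeg k E = 2 ∧ HasModel k E) ∨ HasLogModels k E)
    [Field K] [Algebra E K] [Algebra k K] [IsScalarTower k E K]
    (n : ℕ) (V : Fin n → Submodule E K) [∀ s, FiniteDimensional E (V s)]
    (hgen : IntermediateField.adjoin E (⋃ s, (V s : Set K)) = ⊤)
    (r : ℕ) (ι : Fin r → Type) [∀ j, Fintype (ι j)] (i₀ : ∀ j, ι j)
    (c : ∀ j, ι j → E) (hc : ∀ j i, c j i ≠ 0) (d : ∀ j, ι j → Fin n → ℕ)
    (g : ∀ j i s, Fin (d j i s) → K) (hgV : ∀ j i s t, g j i s t ∈ V s)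
    (hg0 : ∀ j i s t, g j i s t ≠ 0) (e : ∀ j, ι j → Fin r → ℕ) (f : Fin r → K)
    (he : ∀ j i l, e j i l ≠ 0 → l < j ∧ f l ≠ 0)
    (hf : ∀ j, f j = ∑ i, algebraMap E K (c j i) * ((∏ s, ∏ t, g j i s t) * ∏ l, f l ^ e j i l))
    (deg : Fin r → Fin n → ZMod p)
    (hdeg : ∀ j, deg j = Pool.Agent.W418.LCI.dg deg (d j (i₀ j)) (e j (i₀ j)))
    (hind : LinearIndependent (ZMod p) fun q : (j : Fin r) × {i : ι j // i ≠ i₀ j} =>
      Pool.Agent.W418.LCI.dg deg (d q.1 q.2) (e q.1 q.2) - deg q.1)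
    (htr : Algebra.trdeg E K + (Nat.card {j // f j = 0} : Cardinal.{u}) =
      ((∑ s, Module.finrank E (V s) : ℕ) : Cardinal.{u}))
    [CommRing A] [IsDomain A] [Algebra k A] [Algebra A K] [IsScalarTower k A K]
    [IsFractionRing A K] (S : Finset Kˣ)
    (hS : ∀ x ∈ S, x ∈ Subgroup.closure {x : Kˣ | (∃ b, algebraMap E K b = x) ∨
      (∃ s, (x : K) ∈ V s) ∨ ∃ l, f l = x})
    (hA : (IsScalarTower.toAlgHom k A K).range = Algebra.adjoin k (Units.val '' (S : Set Kˣ))) :
    ∃ (T I : Type) (_ : Finite T) (_ : Fintype I),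
      Nonempty (LM (IsScalarTower.toAlgHom k A K).range (IsScalarTower.toAlgHom k A K).range T I) := by
  classical
  have hE' : Pool.Agent.W418.LCI.HasLM k E := by
    rcases hE with ⟨h2, hE⟩ | hE
    · exact Pool.Agent.W418.LCI.hasLM_of_surface k E h2 hE
    · exact Pool.Agent.W418.LCI.hasLM_of_models k E hE
  obtain ⟨T, hT, hST⟩ := exists_finset_closure' _ S hS
  -- index sets in `Type`
  let N := T.card
  let tt : Fin N → Kˣ := fun i => (T.equivFin.symm i).1
  have htt : ∀ i, tt i ∈ T := fun i => (T.equivFin.symm i).2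
  have htt' : ∀ x ∈ T, ∃ i, tt i = x := fun x hx =>
    ⟨T.equivFin ⟨x, hx⟩, by
      change (T.equivFin.symm (T.equivFin ⟨x, hx⟩)).1 = x
      rw [Equiv.symm_apply_apply]⟩
  let H' : Type := {i : Fin N // ∃ b, algebraMap E K b = tt i}
  let h' : H' → E := fun i => i.2.choose
  have hh' : ∀ i, algebraMap E K (h' i) = tt i.1 := fun i => i.2.choose_spec
  have hh0 : ∀ i, h' i ≠ 0 := by
    intro i h
    have h1 := hh' i
    rw [h, map_zero] at h1
    exact (tt i.1).ne_zero h1.symm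
  let Λ' : Type := {i : Fin N // ∃ s, (tt i : K) ∈ V s}
  let u : Λ' → K := fun i => tt i.1
  let ub : Λ' → Fin n := fun i => i.2.choose
  have hu : ∀ q, u q ∈ V (ub q) := fun q => q.2.choose_spec
  have hu0 : ∀ q, u q ≠ 0 := fun q => (tt q.1).ne_zero
  obtain ⟨Q, Ds, hst, hQ⟩ := Pool.Agent.W418.LCI.exists_sta' p k E K hE' n V hgen r ι i₀ c hc d g
    hgV hg0 e f he hf deg hdeg hind htr H' h' hh0 Λ' u ub hu hu0
  let G : Type := H' ⊕ (Λ' ⊕ Fin r)
  let gg : G → K := Sum.elim (fun b => algebraMap E K (h' b)) (Sum.elim u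
        (fun l => open Classical in if f l = 0 then 1 else f l))
  have hgg : ∀ a, gg a ≠ 0 := by
    rintro (i | i | l)
    · exact (map_ne_zero _).2 (hh0 i)
    · exact hu0 i
    · change (if f l = 0 then 1 else f l) ≠ 0
      by_cases h : f l = 0
      · rw [if_pos h]; exact one_ne_zero
      · rw [if_neg h]; exact h
  let gu : G → Kˣ := fun a => Units.mk0 (gg a) (hgg a)
  have hTg : (T : Set Kˣ) ⊆ Set.range gu := by
    intro x hx
    obtain ⟨i, rfl⟩ := htt' x hx
    rcases hT hx with h | h | ⟨l, hl⟩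
    · refine ⟨Sum.inl ⟨i, h⟩, Units.ext ?_⟩
      exact hh' ⟨i, h⟩
    · refine ⟨Sum.inr (Sum.inl ⟨i, h⟩), Units.ext rfl⟩
    · refine ⟨Sum.inr (Sum.inr l), Units.ext ?_⟩
      change (if f l = 0 then 1 else f l) = _
      have hl0 : f l ≠ 0 := by rw [hl]; exact (tt i).ne_zero
      rw [if_neg hl0, hl]
  -- the exponents
  let q := S.equivFin
  have hSe : ∀ b : Fin S.card, ∃ a : G → ℤ, ((q.symm b).1 : Kˣ) = ∏ i, gu i ^ a i := by
    intro b
    have h1 : ((q.symm b).1 : Kˣ) ∈ Subgroup.closure (Set.range gu) :=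
      Subgroup.closure_mono hTg (hST _ (q.symm b).2)
    obtain ⟨a, ha⟩ := Subgroup.mem_closure_range_iff_of_fintype.1 h1
    exact ⟨a, ha⟩
  choose ex hex using hSe
  have hrange : (Set.range fun b => ∏ a, gg a ^ ex b a) = Units.val '' (S : Set Kˣ) := by
    have h1 : ∀ b, ∏ a, gg a ^ ex b a = ((q.symm b).1 : Kˣ) := by
      intro b
      rw [hex b, Units.coe_prod]
      refine Finset.prod_congr rfl fun i _ => ?_
      rw [Units.val_zpow_eq_zpow_val]
      rfl
    ext y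
    constructor
    · rintro ⟨b, rfl⟩
      refine ⟨(q.symm b).1, (q.symm b).2, ?_⟩
      exact (h1 b).symm
    · rintro ⟨x, hx, rfl⟩
      refine ⟨q ⟨x, hx⟩, ?_⟩
      change ∏ a, gg a ^ ex (q ⟨x, hx⟩) a = _
      rw [h1, Equiv.symm_apply_apply]
  have hinj : Function.Injective (IsScalarTower.toAlgHom k A K) :=
    IsFractionRing.injective A K
  obtain ⟨-, -, -, T', I', i1, i2, i3, M, Γ, B, b, hFn, -, -⟩ := hst
  have hmono := fn_mono hFn ex
  have hfr : ∀ x : K, ∃ a ∈ (IsScalarTower.toAlgHom k A K).range,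
      ∃ b ∈ (IsScalarTower.toAlgHom k A K).range, b ≠ 0 ∧ x = a * b⁻¹ := by
    intro x
    obtain ⟨a, b, hb, rfl⟩ := IsFractionRing.div_surjective (A := A) x
    refine ⟨_, ⟨a, rfl⟩, _, ⟨b, rfl⟩, ?_, ?_⟩
    · intro h
      exact nonZeroDivisors.ne_zero hb (hinj (h.trans (map_zero _).symm))
    · rw [div_eq_mul_inv]
      rfl
  obtain ⟨T2, I2, j1, j2, M2, Γ2, -, -⟩ := Pool.Agent.W22.W558Restr.main k K T' I' (Fin S.card) M _ _
    hmono Set.univ (IsScalarTower.toAlgHom k A K).range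
    (by rw [Set.image_univ, hrange, hA]) hfr
  exact ⟨T2, I2, j1, j2, ⟨M2⟩⟩

end Pool.Agent.U186.RD
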