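import Mathlib
import Pool.Agent.U186.RankOneLin

set_option autoImplicit false

universe u

open MvPolynomial

namespace Pool.Agent.U186.RO

/-- The transcendence degree of a component, dominating the base, of a hypersurface. -/
theorem trdeg_hyp {R E K : Type u} [CommRing R] [IsDomain R] [Field E] [Algebra R E]
    [IsFractionRing R E] [Field K] [Algebra E K] {N : ℕ} (x : Fin N → K)
    (hgen : IntermediateField.adjoin E (Set.range x) = ⊤)
    (Ψ : MvPolynomial (Fin N) R) (hΨ0 : Ψ ≠ 0) (P : Ideal (MvPolynomial (Fin N) R))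
    (hP : P ∈ (Ideal.span {Ψ}).minimalPrimes)
    (hker : ∀ G : MvPolynomial (Fin N) R, G ∈ P ↔
      aeval x (G.map (algebraMap R E)) = (0 : K)) :
    Algebra.trdeg E K + 1 = (N : Cardinal.{u}) := by
  classical
  let φ : MvPolynomial (Fin N) R →+* MvPolynomial (Fin N) E := MvPolynomial.map (algebraMap R E)
  have hφ : Function.Injective φ := MvPolynomial.map_injective _ (IsFractionRing.injective R E)
  have hΨP : Ψ ∈ P := hP.1.2 (Ideal.subset_span rfl)
  have hPp : P.IsPrime := hP.1.1
  have hΨ' : φ Ψ ≠ 0 := (map_ne_zero_iff φ hφ).2 hΨ0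
  have hev : aeval x (φ Ψ) = (0 : K) := (hker Ψ).1 hΨP
  -- an irreducible factor of `Ψ` which vanishes at `x`
  obtain ⟨F, hF, hFd, hFx⟩ : ∃ F : MvPolynomial (Fin N) E, Prime F ∧ F ∣ φ Ψ ∧
      aeval x F = (0 : K) := by
    obtain ⟨f, hf, hfa⟩ := UniqueFactorizationMonoid.exists_prime_factors (φ Ψ) hΨ'
    have h1 : aeval x f.prod = (0 : K) := by
      obtain ⟨c, hc⟩ := hfa
      have h2 : aeval x (f.prod * (c : MvPolynomial (Fin N) E)) = (0 : K) := by rw [hc, hev]
      rw [map_mul, mul_eq_zero] at h2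
      rcases h2 with h2 | h2
      · exact h2
      · exact absurd h2 ((c.isUnit.map (aeval x : MvPolynomial (Fin N) E →ₐ[E] K)).ne_zero)
    rw [map_multiset_prod, Multiset.prod_eq_zero_iff] at h1
    obtain ⟨F, hF, hFx⟩ := Multiset.mem_map.1 h1
    exact ⟨F, hf F hF, (Multiset.dvd_prod hF).trans hfa.dvd, hFx⟩
  -- all polynomials which vanish at `x` are divisible by it
  have hdvd : ∀ G : MvPolynomial (Fin N) R, G ∈ P → F ∣ φ G := by
    have hprime : ((Ideal.span {F}).comap φ).IsPrime := by
      have h1 : (Ideal.span {F}).IsPrime := (Ideal.span_singleton_prime hF.ne_zero).2 hF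
      exact Ideal.IsPrime.comap φ
    have h1 : Ideal.span {Ψ} ≤ (Ideal.span {F}).comap φ := by
      rw [Ideal.span_singleton_le_iff_mem]
      exact Ideal.mem_span_singleton.2 hFd
    have h2 : (Ideal.span {F}).comap φ ≤ P := by
      intro G hG
      obtain ⟨H, hH⟩ := Ideal.mem_span_singleton.1 (Ideal.mem_comap.1 hG)
      rw [hker]
      change aeval x (φ G) = 0
      rw [hH, map_mul, hFx, zero_mul]
    have h3 := hP.2 ⟨hprime, h1⟩ h2
    intro G hG
    exact Ideal.mem_span_singleton.1 (h3 hG)
  have hdvd' : ∀ G : MvPolynomial (Fin N) E, aeval x G = (0 : K) → F ∣ G := by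
    intro G hG
    let _ : Algebra (MvPolynomial (Fin N) R) (MvPolynomial (Fin N) E) := φ.toAlgebra
    have hloc : IsLocalization ((nonZeroDivisors R).map (C : R →+* MvPolynomial (Fin N) R))
        (MvPolynomial (Fin N) E) := MvPolynomial.isLocalization (nonZeroDivisors R) E
    obtain ⟨⟨H, s⟩, hHs⟩ := IsLocalization.surj
      ((nonZeroDivisors R).map (C : R →+* MvPolynomial (Fin N) R)) G
    obtain ⟨r, hr, hrs⟩ := s.2
    have hHs' : G * φ (C r) = φ H := by
      rw [hrs]
      exact hHs
    have h1 : H ∈ P := by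
      rw [hker]
      change aeval x (φ H) = 0
      rw [← hHs', map_mul, hG, zero_mul]
    have h2 := hdvd H h1
    rw [← hHs'] at h2
    have hu : IsUnit (φ (C r)) := by
      change IsUnit (MvPolynomial.map (algebraMap R E) (C r))
      rw [MvPolynomial.map_C]
      have h3 : algebraMap R E r ≠ 0 := by
        rw [Ne, map_eq_zero_iff _ (IsFractionRing.injective R E)]
        exact nonZeroDivisors.ne_zero hr
      exact (IsUnit.mk0 _ h3).map C
    exact (IsUnit.dvd_mul_right hu).1 h2
  -- a variable which occurs in `F`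
  obtain ⟨e₀, he₀⟩ : ∃ e, F.degreeOf e ≠ 0 := by
    by_contra hcon
    push Not at hcon
    have h1 : F = C (F.coeff 0) := by
      rw [← MvPolynomial.totalDegree_eq_zero_iff_eq_C]
      rw [MvPolynomial.totalDegree_eq_zero_iff]
      intro m hm i
      have h2 := (MvPolynomial.degreeOf_le_iff (n := i) (f := F) (d := 0)).1 (le_of_eq (hcon i)) m hm
      omega
    apply hF.not_isUnit
    rw [h1]
    have h2 : F.coeff 0 ≠ 0 := by
      intro h3
      rw [h3, C_0] at h1
      exact hF.ne_zero h1
    exact (IsUnit.mk0 _ h2).map C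
  -- the other variables are algebraically independent
  have hind : AlgebraicIndependent E fun e : {e : Fin N // e ≠ e₀} => x e := by
    rw [algebraicIndependent_iff]
    intro G hG
    by_contra hG0
    have h1 : aeval x (rename (Subtype.val : {e : Fin N // e ≠ e₀} → Fin N) G) = (0 : K) := by
      rw [aeval_rename]
      exact hG
    have h2 := hdvd' _ h1
    have h3 : rename (Subtype.val : {e : Fin N // e ≠ e₀} → Fin N) G ≠ 0 :=
      (map_ne_zero_iff _ (rename_injective _ Subtype.val_injective)).2 hG0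
    obtain ⟨Q, hQ⟩ := h2
    have hQ0 : Q ≠ 0 := by
      rintro rfl
      rw [mul_zero] at hQ
      exact h3 hQ
    have h4 := degreeOf_mul_eq (n := e₀) hF.ne_zero hQ0
    rw [← hQ] at h4
    have h5 : degreeOf e₀ (rename (Subtype.val : {e : Fin N // e ≠ e₀} → Fin N) G) = 0 := by
      refine Nat.le_zero.1 (degreeOf_le_iff.2 ?_)
      intro m hm
      rw [MvPolynomial.support_rename_of_injective (Subtype.val_injective)] at hm
      obtain ⟨m', -, rfl⟩ := Finset.mem_image.1 hm
      rw [Finsupp.mapDomain_notin_range]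
      rintro ⟨e, he⟩
      exact e.2 he
    omega
  have hle := hind.lift_cardinalMk_le_trdeg
  have hlt := trdeg_lt_of_rel x hgen (φ Ψ) hΨ' hev
  rw [Fintype.card_fin] at hlt
  obtain ⟨t, ht⟩ := Cardinal.lt_aleph0.1 (hlt.trans Cardinal.natCast_lt_aleph0)
  have hcard : Fintype.card {e : Fin N // e ≠ e₀} = N - 1 := by
    rw [Fintype.card_subtype_compl, Fintype.card_fin]
    simp
  rw [ht] at hlt hle ⊢
  rw [Cardinal.mk_fintype, Cardinal.lift_natCast, hcard] at hle
  simp only [Cardinal.lift_natCast, Nat.cast_le] at hle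
  have hlt' : t < N := by exact_mod_cast hlt
  have : t + 1 = N := by omega
  exact_mod_cast this

end Pool.Agent.U186.RO
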