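import Pool.Agent.U186.RankOneMain
import Pool.Agent.U186.RankOneHyp

set_option autoImplicit false

universe u

open AlgebraicGeometry CategoryTheory Pool.Agent.W558 MvPolynomial

namespace Pool.Agent.U186.RO

/-- The matrix `M + ∑ e, t e ^ m e • u e ⊗ v e` with variables `t e`. -/
noncomputable def genMat {R : Type u} [CommRing R] {n N : ℕ} (M : Matrix (Fin n) (Fin n) R)
    (u v : Fin N → Fin n → R) (m : Fin N → ℕ) :
    Matrix (Fin n) (Fin n) (MvPolynomial (Fin N) R) :=
  Matrix.of fun i j => C (M i j) + ∑ e, C (u e i * v e j) * X e ^ m e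

lemma mat_map {R E : Type u} [CommRing R] [Field E] [Algebra R E] {n N : ℕ}
    (M : Matrix (Fin n) (Fin n) R) (u v : Fin N → Fin n → R) (m : Fin N → ℕ) :
    mat (M.map (algebraMap R E)) (fun e i => algebraMap R E (u e i))
      (fun e i => algebraMap R E (v e i)) (fun e => (X e : MvPolynomial (Fin N) E) ^ m e) =
      (genMat M u v m).map (MvPolynomial.map (algebraMap R E)) := by
  ext1 i j
  rw [Matrix.map_apply]
  unfold mat genMat
  rw [Matrix.of_apply, Matrix.of_apply, map_add, map_sum, map_C, Matrix.map_apply]
  congr 1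
  refine Finset.sum_congr rfl fun e _ => ?_
  rw [map_mul (MvPolynomial.map (algebraMap R E)), map_C, map_pow, map_X,
    map_mul (algebraMap R E), mul_comm]
  rfl

/-- Resolution of the components which dominate the base. -/
theorem hyp_res (p : ℕ) [Fact p.Prime] (k R E : Type u) [Field k] [PerfectField k] [CharP k p]
    [CommRing R] [IsDomain R] [Algebra k R] [Algebra.FiniteType k R] [Field E] [Algebra k E]
    [Algebra R E] [IsScalarTower k R E] [IsFractionRing R E]
    (hE : (Algebra.trdeg k E = 2 ∧ HasModel k E) ∨ HasLogModels k E)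
    {n N : ℕ} (M : Matrix (Fin n) (Fin n) R) (u v : Fin N → Fin n → R)
    (m : Fin N → ℕ) (hm : ∀ e, ¬ p ∣ m e)
    (hΨ : (genMat M u v m).det ≠ 0) (P : Ideal (MvPolynomial (Fin N) R))
    (hP : P ∈ (Ideal.span {(genMat M u v m).det}).minimalPrimes)
    (hPC : P.comap (C : R →+* MvPolynomial (Fin N) R) = ⊥) :
    IsResolvableVariety (X := Spec (CommRingCat.of (MvPolynomial (Fin N) R ⧸ P)))
      (Spec.map (CommRingCat.ofHom (algebraMap k (MvPolynomial (Fin N) R ⧸ P)))) := by
  classical
  have hPp : P.IsPrime := hP.1.1
  let A := MvPolynomial (Fin N) R ⧸ P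
  let K := FractionRing A
  have hRK : Function.Injective (algebraMap R K) := by
    rw [injective_iff_map_eq_zero]
    intro r hr
    rw [IsScalarTower.algebraMap_apply R A K, map_eq_zero_iff _ (IsFractionRing.injective A K)] at hr
    have h1 : C r ∈ P := Ideal.Quotient.eq_zero_iff_mem.1 hr
    have h2 : r ∈ P.comap (C : R →+* MvPolynomial (Fin N) R) := h1
    rw [hPC] at h2
    exact h2
  let _ : Algebra E K := (IsFractionRing.lift hRK : E →+* K).toAlgebra
  have hEK : ∀ r : R, algebraMap E K (algebraMap R E r) = algebraMap R K r := fun r =>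
    IsFractionRing.lift_algebraMap hRK r
  have tRE : IsScalarTower R E K := IsScalarTower.of_algebraMap_eq fun r => (hEK r).symm
  have tkE : IsScalarTower k E K := by
    refine IsScalarTower.of_algebraMap_eq fun c => ?_
    rw [IsScalarTower.algebraMap_apply k R E, hEK, ← IsScalarTower.algebraMap_apply k R K]
  let x : Fin N → K := fun e => algebraMap A K (Ideal.Quotient.mk P (X e))
  have hx : ∀ G : MvPolynomial (Fin N) R, aeval x (G.map (algebraMap R E)) =
      algebraMap A K (Ideal.Quotient.mk P G) := by
    intro G
    rw [aeval_map_algebraMap]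
    have h1 : (aeval x : MvPolynomial (Fin N) R →ₐ[R] K) =
        (IsScalarTower.toAlgHom R A K).comp (Ideal.Quotient.mkₐ R P) := by
      apply MvPolynomial.algHom_ext
      intro e
      rw [aeval_X]
      rfl
    rw [h1]
    rfl
  have hker : ∀ G : MvPolynomial (Fin N) R, G ∈ P ↔
      aeval x (G.map (algebraMap R E)) = (0 : K) := by
    intro G
    rw [hx, map_eq_zero_iff _ (IsFractionRing.injective A K), Ideal.Quotient.eq_zero_iff_mem]
  have hmem : ∀ a : A, algebraMap A K a ∈ IntermediateField.adjoin E (Set.range x) := by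
    intro a
    obtain ⟨G, rfl⟩ := Ideal.Quotient.mk_surjective a
    rw [← hx]
    have h1 : aeval x (G.map (algebraMap R E)) ∈ Algebra.adjoin E (Set.range x) := by
      rw [Algebra.adjoin_range_eq_range_aeval]
      exact ⟨_, rfl⟩
    exact IntermediateField.algebra_adjoin_le_adjoin E (Set.range x) h1
  have hgen : IntermediateField.adjoin E (Set.range x) = ⊤ := by
    rw [eq_top_iff]
    intro y _
    obtain ⟨a, b, -, rfl⟩ := IsFractionRing.div_surjective (A := A) y
    exact div_mem (hmem a) (hmem b)
  have htr := trdeg_hyp x hgen _ hΨ P hP hker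
  -- the matrices
  let M' : Matrix (Fin n) (Fin n) E := M.map (algebraMap R E)
  let u' : Fin N → Fin n → E := fun e i => algebraMap R E (u e i)
  let v' : Fin N → Fin n → E := fun e i => algebraMap R E (v e i)
  let Xm : Fin N → MvPolynomial (Fin N) E := fun e => X e ^ m e
  have hmat1 : mat M' u' v' Xm =
      (genMat M u v m).map (MvPolynomial.map (algebraMap R E)) := mat_map M u v m
  have hmat2 : mat M' u' v' (fun e => x e ^ m e) = (mat M' u' v' Xm).map
      (aeval x : MvPolynomial (Fin N) E →ₐ[E] K) := by
    ext1 i j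
    simp only [mat, Matrix.of_apply, Matrix.map_apply, map_add, map_sum, map_mul, Xm, map_pow,
      aeval_X, AlgHom.commutes]
  have hdet1 : (mat M' u' v' Xm).det =
      MvPolynomial.map (algebraMap R E) (genMat M u v m).det := by
    rw [hmat1, ← RingHom.mapMatrix_apply, ← RingHom.map_det]
  have hdet : (mat M' u' v' fun e => x e ^ m e).det = 0 := by
    have h1 : (mat M' u' v' fun e => x e ^ m e).det = aeval x (mat M' u' v' Xm).det := by
      have h2 := RingHom.map_det (aeval x : MvPolynomial (Fin N) E →ₐ[E] K).toRingHom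
        (mat M' u' v' Xm)
      rw [RingHom.mapMatrix_apply] at h2
      rw [hmat2]
      exact h2.symm
    rw [h1, hdet1]
    exact (hker _).1 (hP.1.2 (Ideal.subset_span rfl))
  have hΨ' : (mat M' u' v' Xm).det ≠ 0 := by
    rw [hdet1]
    exact (map_ne_zero_iff _ (MvPolynomial.map_injective _ (IsFractionRing.injective R E))).2 hΨ
  -- the generators
  obtain ⟨R₀, hR₀⟩ := (inferInstance : Algebra.FiniteType k R).1
  have hA : (IsScalarTower.toAlgHom k A K).range =
      Algebra.adjoin k (algebraMap E K '' ((R₀.image (algebraMap R E) : Finset E) : Set E) ∪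
        Set.range x) := by
    have h0 : algebraMap E K '' ((R₀.image (algebraMap R E) : Finset E) : Set E) =
        algebraMap R K '' (R₀ : Set R) := by
      rw [Finset.coe_image, Set.image_image]
      simp only [hEK]
    rw [h0]
    apply le_antisymm
    · rintro _ ⟨a, rfl⟩
      change algebraMap A K a ∈ _
      obtain ⟨G, rfl⟩ := Ideal.Quotient.mk_surjective a
      set B := Algebra.adjoin k (algebraMap R K '' (R₀ : Set R) ∪ Set.range x) with hB
      have hRB : ∀ r : R, algebraMap R K r ∈ B := by
        intro r
        have h1 : r ∈ Algebra.adjoin k (R₀ : Set R) := by rw [hR₀]; exact Algebra.mem_top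
        have h2 : (IsScalarTower.toAlgHom k R K) r ∈
            (Algebra.adjoin k (R₀ : Set R)).map (IsScalarTower.toAlgHom k R K) := ⟨r, h1, rfl⟩
        rw [AlgHom.map_adjoin] at h2
        exact Algebra.adjoin_mono Set.subset_union_left h2
      induction G using MvPolynomial.induction_on with
      | C r =>
        have : algebraMap A K (Ideal.Quotient.mk P (C r)) = algebraMap R K r := rfl
        rw [this]
        exact hRB r
      | add G H hG hH =>
        rw [map_add, map_add]
        exact B.add_mem hG hH
      | mul_X G e hG =>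
        rw [map_mul, map_mul]
        exact B.mul_mem hG (Algebra.subset_adjoin (Or.inr ⟨e, rfl⟩))
    · rw [Algebra.adjoin_le_iff]
      rintro _ (⟨r, -, rfl⟩ | ⟨e, rfl⟩)
      · exact ⟨algebraMap R A r, rfl⟩
      · exact ⟨Ideal.Quotient.mk P (X e), rfl⟩
  exact ro_main p k E K A hE M' u' v' x m hm hgen hdet hΨ' htr _ hA

/-- A point has log models. -/
theorem hasLogModels_of_surjective (k E : Type u) [Field k] [Field E] [Algebra k E]
    (hs : Function.Surjective (algebraMap k E)) : HasLogModels k E := by
  intro m g hg
  refine ⟨0, 0, fun _ => 1, fun _ => Fin.elim0, fun _ => Fin.elim0, ?_⟩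
  have htop : ∀ B : Subalgebra k E, B = ⊤ := by
    intro B
    rw [eq_top_iff]
    intro y _
    obtain ⟨c, rfl⟩ := hs y
    exact Subalgebra.algebraMap_mem _ c
  have e : k ≃ₐ[k] E := AlgEquiv.ofBijective (Algebra.ofId k E) ⟨(algebraMap k E).injective, hs⟩
  exact
    { H0 := fun _ => one_ne_zero
      smooth := by
        intro i
        rw [htop (chart k (fun _ : Fin (0 + 1) => (1 : E)) i)]
        have h1 : Algebra.Smooth k E := Algebra.Smooth.of_equiv e
        exact Algebra.Smooth.of_equiv (Subalgebra.topEquiv (R := k) (A := E)).symm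
      frac := by
        intro i f
        refine ⟨f, ?_, 1, ?_, one_ne_zero, by simp⟩
        · rw [htop (chart k _ i)]; exact Algebra.mem_top
        · rw [htop (chart k _ i)]; exact Algebra.mem_top
      mem := fun _ l => l.elim0
      ne := fun _ l => l.elim0
      glue := fun _ _ l => l.elim0
      snc := fun _ _ _ _ _ l => l.elim0
      mono := by
        intro b i
        refine ⟨g b, ?_, ?_, hg b, by simp⟩
        · rw [htop (chart k _ i)]; exact Algebra.mem_top
        · rw [htop (chart k _ i)]; exact Algebra.mem_top }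

end Pool.Agent.U186.RO
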