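import Pool.Agent.U186.DropTop
import Pool.Agent.U186.RankOneFin

/-!
# Rank drop loci: minors of size `min a b`, and transposes
-/

set_option autoImplicit false

universe u

open AlgebraicGeometry CategoryTheory Pool.Agent.W558 MvPolynomial

namespace Pool.Agent.U186.RD

/-- The ideal generated by all minors of size `r`. -/
noncomputable def minorsOf {R : Type*} [CommRing R] {a b : ℕ} (r : ℕ)
    (A : Matrix (Fin a) (Fin b) R) : Ideal R :=
  Ideal.span (Set.range fun q : (Fin r → Fin a) × (Fin r → Fin b) => (A.submatrix q.1 q.2).det)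

lemma minorsOf_eq {R : Type*} [CommRing R] {a b : ℕ} (A : Matrix (Fin a) (Fin b) R) :
    minorsOf b A = minors A := by
  apply le_antisymm
  · rw [minorsOf, Ideal.span_le]
    rintro _ ⟨⟨f, g⟩, rfl⟩
    change (A.submatrix f g).det ∈ minors A
    by_cases hg : Function.Injective g
    · let σ : Equiv.Perm (Fin b) := Equiv.ofBijective g ((Finite.injective_iff_bijective).1 hg)
      have h1 : A.submatrix f g = (A.submatrix (fun i => f (σ.symm i)) id).submatrix σ σ := by
        ext1 i j
        simp only [Matrix.submatrix_apply, Equiv.symm_apply_apply, id]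
        rfl
      rw [h1, Matrix.det_submatrix_equiv_self]
      exact (minors_le_iff _ _).1 le_rfl _
    · have h1 : ∃ i j, g i = g j ∧ i ≠ j := by
        by_contra h
        push Not at h
        exact hg fun i j => h i j
      obtain ⟨i, j, hij, hne⟩ := h1
      have h2 : (A.submatrix f g).det = 0 := by
        refine Matrix.det_zero_of_column_eq hne fun l => ?_
        simp only [Matrix.submatrix_apply, hij]
      rw [h2]
      exact Ideal.zero_mem _
  · rw [minors_le_iff]
    intro f
    exact Ideal.subset_span ⟨(f, id), rfl⟩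

lemma minorsOf_transpose {R : Type*} [CommRing R] {a b : ℕ} (r : ℕ)
    (A : Matrix (Fin a) (Fin b) R) : minorsOf r A.transpose = minorsOf r A := by
  rw [minorsOf, minorsOf]
  congr 1
  apply Set.eq_of_subset_of_subset
  · rintro _ ⟨⟨f, g⟩, rfl⟩
    exact ⟨(g, f), by
      change (A.submatrix g f).det = (A.transpose.submatrix f g).det
      rw [← Matrix.transpose_submatrix, Matrix.det_transpose]⟩
  · rintro _ ⟨⟨f, g⟩, rfl⟩
    exact ⟨(g, f), by
      change (A.transpose.submatrix g f).det = (A.submatrix f g).det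
      rw [← Matrix.transpose_submatrix, Matrix.det_transpose]⟩

lemma genMat_transpose {R : Type u} [CommRing R] {a b N : ℕ} (M : Matrix (Fin a) (Fin b) R)
    (u : Fin N → Fin a → R) (v : Fin N → Fin b → R) (m : Fin N → ℕ) :
    (genMat M u v m).transpose = genMat M.transpose v u m := by
  ext1 i j
  simp only [genMat, Matrix.transpose_apply, Matrix.of_apply]
  congr 1
  refine Finset.sum_congr rfl fun e _ => ?_
  rw [mul_comm (u e j)]

/-- **Smooth charts of the components of the locus where the rank drops.** -/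
theorem drop_LM' (p : ℕ) [Fact p.Prime] (k R E : Type u) [Field k] [PerfectField k] [CharP k p]
    [CommRing R] [IsDomain R] [Algebra k R] [Algebra.FiniteType k R] [Field E] [Algebra k E]
    [Algebra R E] [IsScalarTower k R E] [IsFractionRing R E]
    (hE : (Algebra.trdeg k E = 2 ∧ HasModel k E) ∨ HasLogModels k E)
    {a b N : ℕ} (M : Matrix (Fin a) (Fin b) R) (u : Fin N → Fin a → R) (v : Fin N → Fin b → R)
    (m : Fin N → ℕ) (hm : ∀ e, ¬ p ∣ m e)
    (hI : minorsOf (min a b) (genMat M u v m) ≠ ⊥) (P : Ideal (MvPolynomial (Fin N) R))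
    (hP : P ∈ (minorsOf (min a b) (genMat M u v m)).minimalPrimes)
    (hPC : P.comap (C : R →+* MvPolynomial (Fin N) R) = ⊥) :
    ∃ (K : Type u) (_ : Field K) (_ : Algebra k K) (_ : Algebra (MvPolynomial (Fin N) R ⧸ P) K)
      (_ : IsScalarTower k (MvPolynomial (Fin N) R ⧸ P) K)
      (_ : IsFractionRing (MvPolynomial (Fin N) R ⧸ P) K)
      (T I : Type) (_ : Finite T) (_ : Fintype I),
      Nonempty (LM (IsScalarTower.toAlgHom k (MvPolynomial (Fin N) R ⧸ P) K).range
        (IsScalarTower.toAlgHom k (MvPolynomial (Fin N) R ⧸ P) K).range T I) := by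
  rcases le_total a b with h | h
  · rw [min_eq_left h, ← minorsOf_transpose, genMat_transpose, minorsOf_eq] at hI hP
    exact drop_LM p k R E hE M.transpose v u m hm hI P hP hPC
  · rw [min_eq_right h, minorsOf_eq] at hI hP
    exact drop_LM p k R E hE M u v m hm hI P hP hPC

/-- **Resolution of the components of the locus where the rank drops.** -/
theorem drop_res (p : ℕ) [Fact p.Prime] (k R E : Type u) [Field k] [PerfectField k] [CharP k p]
    [CommRing R] [IsDomain R] [Algebra k R] [Algebra.FiniteType k R] [Field E] [Algebra k E]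
    [Algebra R E] [IsScalarTower k R E] [IsFractionRing R E]
    (hE : Function.Surjective (algebraMap k E) ∨ (Algebra.trdeg k E = 2 ∧ HasModel k E) ∨
      HasLogModels k E)
    {a b N : ℕ} (M : Matrix (Fin a) (Fin b) R) (u : Fin N → Fin a → R) (v : Fin N → Fin b → R)
    (m : Fin N → ℕ) (hm : ∀ e, ¬ p ∣ m e)
    (hI : minorsOf (min a b) (genMat M u v m) ≠ ⊥) (P : Ideal (MvPolynomial (Fin N) R))
    (hP : P ∈ (minorsOf (min a b) (genMat M u v m)).minimalPrimes)
    (hPC : P.comap (C : R →+* MvPolynomial (Fin N) R) = ⊥) :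
    IsResolvableVariety (X := Spec (CommRingCat.of (MvPolynomial (Fin N) R ⧸ P)))
      (Spec.map (CommRingCat.ofHom (algebraMap k (MvPolynomial (Fin N) R ⧸ P)))) := by
  have hE' : (Algebra.trdeg k E = 2 ∧ HasModel k E) ∨ HasLogModels k E := by
    rcases hE with h | h | h
    · exact Or.inr (Pool.Agent.U186.RO.hasLogModels_of_surjective k E h)
    · exact Or.inl h
    · exact Or.inr h
  have hPp : P.IsPrime := hP.1.1
  obtain ⟨K, _, _, _, _, _, T, I, _, _, ⟨L⟩⟩ := drop_LM' p k R E hE' M u v m hm hI P hP hPC
  have hft : Algebra.FiniteType k (MvPolynomial (Fin N) R ⧸ P) := by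
    have h1 : Algebra.FiniteType k (MvPolynomial (Fin N) R) :=
      Algebra.FiniteType.trans (S := R) inferInstance inferInstance
    exact Algebra.FiniteType.of_surjective (Ideal.Quotient.mkₐ k P) Ideal.Quotient.mk_surjective
  exact isResolvableVariety_spec (hasResolution_of_LM
    (IsScalarTower.toAlgHom k (MvPolynomial (Fin N) R ⧸ P) K)
    (IsFractionRing.injective (MvPolynomial (Fin N) R ⧸ P) K) L)

end Pool.Agent.U186.RD
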