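import Pool.Agent.U186.DropSta
import Pool.Agent.U186.DropMinors

/-!
# Rank drop loci: regular models proper over the integers of their function fields
-/

set_option autoImplicit false

open AlgebraicGeometry CategoryTheory Pool.Agent.W558 MvPolynomial

namespace Pool.Agent.U186.RD

/-- The matrix with variables, over a field. -/
lemma genMat_eq_rmat {E : Type} [Field E] {a b N : ℕ} (M : Matrix (Fin a) (Fin b) E)
    (u : Fin N → Fin a → E) (v : Fin N → Fin b → E) (m : Fin N → ℕ) :
    genMat M u v m = rmat M u v (fun e => (X e : MvPolynomial (Fin N) E) ^ m e) := by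
  ext1 i j
  simp only [genMat, rmat, Matrix.of_apply, MvPolynomial.algebraMap_eq]
  congr 1
  refine Finset.sum_congr rfl fun e _ => ?_
  rw [mul_comm]

theorem drop_reg₀ (p : ℕ) [Fact p.Prime] (k E : Type) [Field k] [Finite k] [CharP k p]
    [Field E] [Algebra k E] (hE : (Algebra.trdeg k E = 2 ∧ HasModel k E) ∨ HasLogModels k E)
    {a b N : ℕ} (M : Matrix (Fin a) (Fin b) E) (u : Fin N → Fin a → E) (v : Fin N → Fin b → E)
    (m : Fin N → ℕ) (hm : ∀ e, ¬ p ∣ m e)
    (hI : minors (genMat M u v m) ≠ ⊥) (P : Ideal (MvPolynomial (Fin N) E))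
    (hP : P ∈ (minors (genMat M u v m)).minimalPrimes)
    (K : Type) [Field K] [Algebra (MvPolynomial (Fin N) E ⧸ P) K]
    [IsFractionRing (MvPolynomial (Fin N) E ⧸ P) K] :
    ∃ (X' : Scheme.{0}) (_ : IsIntegral X') (g : X' ⟶ Spec (CommRingCat.of ℤ)),
      IsProper g ∧
      (∀ x : X',
        (((Module.finrank (IsLocalRing.ResidueField (X'.presheaf.stalk x))
            (IsLocalRing.CotangentSpace (X'.presheaf.stalk x)) : ℕ∞)) : WithBot ℕ∞)
          = ringKrullDim (X'.presheaf.stalk x)) ∧
      Nonempty (X'.functionField ≃+* K) := by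
  have hPp : P.IsPrime := hP.1.1
  let A := MvPolynomial (Fin N) E ⧸ P
  let _ : Algebra E K := ((algebraMap A K).comp (algebraMap E A)).toAlgebra
  have t1 : IsScalarTower E A K := IsScalarTower.of_algebraMap_eq (R := E) (S := A) (A := K) fun _ => rfl
  let _ : Algebra k K := ((algebraMap E K).comp (algebraMap k E)).toAlgebra
  have t2 : IsScalarTower k E K := IsScalarTower.of_algebraMap_eq fun _ => rfl
  let t : Fin N → K := fun e => algebraMap A K (Ideal.Quotient.mk P (X e))
  have ht : ∀ G : MvPolynomial (Fin N) E, aeval t G = algebraMap A K (Ideal.Quotient.mk P G) := by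
    intro G
    have h1 : (aeval t : MvPolynomial (Fin N) E →ₐ[E] K) =
        (IsScalarTower.toAlgHom E A K).comp (Ideal.Quotient.mkₐ E P) := by
      apply MvPolynomial.algHom_ext
      intro e
      rw [aeval_X]
      rfl
    rw [h1]
    rfl
  have hker : ∀ G : MvPolynomial (Fin N) E, G ∈ P ↔ aeval t G = (0 : K) := by
    intro G
    rw [ht, map_eq_zero_iff _ (IsFractionRing.injective A K), Ideal.Quotient.eq_zero_iff_mem]
  have hmem : ∀ a : A, algebraMap A K a ∈ IntermediateField.adjoin E (Set.range t) := by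
    intro a
    obtain ⟨G, rfl⟩ := Ideal.Quotient.mk_surjective a
    rw [← ht]
    have h1 : aeval t G ∈ Algebra.adjoin E (Set.range t) := by
      rw [Algebra.adjoin_range_eq_range_aeval]
      exact ⟨_, rfl⟩
    exact IntermediateField.algebra_adjoin_le_adjoin E (Set.range t) h1
  have hgen : IntermediateField.adjoin E (Set.range t) = ⊤ := by
    rw [eq_top_iff]
    intro y _
    obtain ⟨a, b, -, rfl⟩ := IsFractionRing.div_surjective (A := A) y
    exact div_mem (hmem a) (hmem b)
  have hm0 : ∀ e, 0 < m e := fun e => Nat.pos_of_ne_zero fun h => hm e (by rw [h]; exact dvd_zero p)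
  rw [genMat_eq_rmat] at hI hP
  obtain ⟨w, i₀, hwi, hft, htr⟩ := comp_data M u v m hm0 hI P hP K t hgen hker
  exact gen_reg p k E K hE v t m hm hgen w i₀ hwi hft htr

/-- **Regular models, proper over the integers, of the function fields of the components.** -/
theorem drop_reg (p : ℕ) [Fact p.Prime] (k E : Type) [Field k] [Finite k] [CharP k p]
    [Field E] [Algebra k E]
    (hE : Function.Surjective (algebraMap k E) ∨ (Algebra.trdeg k E = 2 ∧ HasModel k E) ∨
      HasLogModels k E)
    {a b N : ℕ} (M : Matrix (Fin a) (Fin b) E) (u : Fin N → Fin a → E) (v : Fin N → Fin b → E)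
    (m : Fin N → ℕ) (hm : ∀ e, ¬ p ∣ m e)
    (hI : minorsOf (min a b) (genMat M u v m) ≠ ⊥) (P : Ideal (MvPolynomial (Fin N) E))
    (hP : P ∈ (minorsOf (min a b) (genMat M u v m)).minimalPrimes)
    (K : Type) [Field K] [Algebra (MvPolynomial (Fin N) E ⧸ P) K]
    [IsFractionRing (MvPolynomial (Fin N) E ⧸ P) K] :
    ∃ (X' : Scheme.{0}) (_ : IsIntegral X') (g : X' ⟶ Spec (CommRingCat.of ℤ)),
      IsProper g ∧
      (∀ x : X',
        (((Module.finrank (IsLocalRing.ResidueField (X'.presheaf.stalk x))
            (IsLocalRing.CotangentSpace (X'.presheaf.stalk x)) : ℕ∞)) : WithBot ℕ∞)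
          = ringKrullDim (X'.presheaf.stalk x)) ∧
      Nonempty (X'.functionField ≃+* K) := by
  have hE' : (Algebra.trdeg k E = 2 ∧ HasModel k E) ∨ HasLogModels k E := by
    rcases hE with h | h | h
    · exact Or.inr (Pool.Agent.U186.RO.hasLogModels_of_surjective k E h)
    · exact Or.inl h
    · exact Or.inr h
  rcases le_total a b with h | h
  · rw [min_eq_left h, ← minorsOf_transpose, genMat_transpose, minorsOf_eq] at hI hP
    exact drop_reg₀ p k E hE' M.transpose v u m hm hI P hP K
  · rw [min_eq_right h, minorsOf_eq] at hI hP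
    exact drop_reg₀ p k E hE' M u v m hm hI P hP K

end Pool.Agent.U186.RD
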