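import Pool.Agent.U186.DropFin

/-!
# Rank drop loci of matrices with terms of rank one: the main theorem
-/

set_option autoImplicit false

universe u

open AlgebraicGeometry CategoryTheory Pool.Agent.W558 MvPolynomial

namespace Pool.Agent.U186.RD

/-- The matrix `M + ∑ e, t e ^ m e • u e ⊗ v e` with variables `t e`. -/
noncomputable def genMat {R : Type u} [CommRing R] {a b N : ℕ} (M : Matrix (Fin a) (Fin b) R)
    (u : Fin N → Fin a → R) (v : Fin N → Fin b → R) (m : Fin N → ℕ) :
    Matrix (Fin a) (Fin b) (MvPolynomial (Fin N) R) :=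
  Matrix.of fun i j => C (M i j) + ∑ e, C (u e i * v e j) * X e ^ m e

lemma mat_map {R E : Type u} [CommRing R] [Field E] [Algebra R E] {a b N : ℕ}
    (M : Matrix (Fin a) (Fin b) R) (u : Fin N → Fin a → R) (v : Fin N → Fin b → R)
    (m : Fin N → ℕ) :
    rmat (M.map (algebraMap R E)) (fun e i => algebraMap R E (u e i))
      (fun e i => algebraMap R E (v e i)) (fun e => (X e : MvPolynomial (Fin N) E) ^ m e) =
      (genMat M u v m).map (MvPolynomial.map (algebraMap R E)) := by
  ext1 i j
  rw [Matrix.map_apply]
  unfold rmat genMat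
  rw [Matrix.of_apply, Matrix.of_apply, map_add, map_sum, map_C, Matrix.map_apply]
  congr 1
  refine Finset.sum_congr rfl fun e _ => ?_
  rw [map_mul (MvPolynomial.map (algebraMap R E)), map_C, map_pow, map_X,
    map_mul (algebraMap R E), mul_comm]
  rfl

/-- **The components which dominate the base: smooth charts.** -/
theorem drop_LM (p : ℕ) [Fact p.Prime] (k R E : Type u) [Field k] [PerfectField k] [CharP k p]
    [CommRing R] [IsDomain R] [Algebra k R] [Algebra.FiniteType k R] [Field E] [Algebra k E]
    [Algebra R E] [IsScalarTower k R E] [IsFractionRing R E]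
    (hE : (Algebra.trdeg k E = 2 ∧ HasModel k E) ∨ HasLogModels k E)
    {a b N : ℕ} (M : Matrix (Fin a) (Fin b) R) (u : Fin N → Fin a → R) (v : Fin N → Fin b → R)
    (m : Fin N → ℕ) (hm : ∀ e, ¬ p ∣ m e)
    (hI : minors (genMat M u v m) ≠ ⊥) (P : Ideal (MvPolynomial (Fin N) R))
    (hP : P ∈ (minors (genMat M u v m)).minimalPrimes)
    (hPC : P.comap (C : R →+* MvPolynomial (Fin N) R) = ⊥) :
    ∃ (K : Type u) (_ : Field K) (_ : Algebra k K) (_ : Algebra (MvPolynomial (Fin N) R ⧸ P) K)
      (_ : IsScalarTower k (MvPolynomial (Fin N) R ⧸ P) K)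
      (_ : IsFractionRing (MvPolynomial (Fin N) R ⧸ P) K)
      (T I : Type) (_ : Finite T) (_ : Fintype I),
      Nonempty (LM (IsScalarTower.toAlgHom k (MvPolynomial (Fin N) R ⧸ P) K).range
        (IsScalarTower.toAlgHom k (MvPolynomial (Fin N) R ⧸ P) K).range T I) := by
  classical
  have hPp : P.IsPrime := hP.1.1
  let A := MvPolynomial (Fin N) R ⧸ P
  let K := FractionRing A
  have hRK : Function.Injective (algebraMap R K) := by
    rw [injective_iff_map_eq_zero]
    intro r hr
    rw [IsScalarTower.algebraMap_apply R A K, map_eq_zero_iff _ (IsFractionRing.injective A K)] at hr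
    have h1 : C r ∈ P := Ideal.Quotient.eq_zero_iff_mem.1 hr
    have h2 : r ∈ P.comap (C : R →+* MvPolynomial (Fin N) R) := h1
    rw [hPC] at h2
    exact h2
  let _ : Algebra E K := (IsFractionRing.lift hRK : E →+* K).toAlgebra
  have hEK : ∀ r : R, algebraMap E K (algebraMap R E r) = algebraMap R K r := fun r =>
    IsFractionRing.lift_algebraMap hRK r
  have tRE : IsScalarTower R E K := IsScalarTower.of_algebraMap_eq fun r => (hEK r).symm
  have tkE : IsScalarTower k E K := by
    refine IsScalarTower.of_algebraMap_eq fun c => ?_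
    rw [IsScalarTower.algebraMap_apply k R E, hEK, ← IsScalarTower.algebraMap_apply k R K]
  let x : Fin N → K := fun e => algebraMap A K (Ideal.Quotient.mk P (X e))
  have hx : ∀ G : MvPolynomial (Fin N) R, aeval x (G.map (algebraMap R E)) =
      algebraMap A K (Ideal.Quotient.mk P G) := by
    intro G
    rw [aeval_map_algebraMap]
    have h1 : (aeval x : MvPolynomial (Fin N) R →ₐ[R] K) =
        (IsScalarTower.toAlgHom R A K).comp (Ideal.Quotient.mkₐ R P) := by
      apply MvPolynomial.algHom_ext
      intro e
      rw [aeval_X]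
      rfl
    rw [h1]
    rfl
  have hker : ∀ G : MvPolynomial (Fin N) R, G ∈ P ↔
      aeval x (G.map (algebraMap R E)) = (0 : K) := by
    intro G
    rw [hx, map_eq_zero_iff _ (IsFractionRing.injective A K), Ideal.Quotient.eq_zero_iff_mem]
  have hmem : ∀ a : A, algebraMap A K a ∈ IntermediateField.adjoin E (Set.range x) := by
    intro a
    obtain ⟨G, rfl⟩ := Ideal.Quotient.mk_surjective a
    rw [← hx]
    have h1 : aeval x (G.map (algebraMap R E)) ∈ Algebra.adjoin E (Set.range x) := by
      rw [Algebra.adjoin_range_eq_range_aeval]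
      exact ⟨_, rfl⟩
    exact IntermediateField.algebra_adjoin_le_adjoin E (Set.range x) h1
  have hgen : IntermediateField.adjoin E (Set.range x) = ⊤ := by
    rw [eq_top_iff]
    intro y _
    obtain ⟨a, b, -, rfl⟩ := IsFractionRing.div_surjective (A := A) y
    exact div_mem (hmem a) (hmem b)
  -- the matrices
  let M' : Matrix (Fin a) (Fin b) E := M.map (algebraMap R E)
  let u' : Fin N → Fin a → E := fun e i => algebraMap R E (u e i)
  let v' : Fin N → Fin b → E := fun e i => algebraMap R E (v e i)
  let Xm : Fin N → MvPolynomial (Fin N) E := fun e => X e ^ m e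
  have hmat1 : rmat M' u' v' Xm =
      (genMat M u v m).map (MvPolynomial.map (algebraMap R E)) := mat_map M u v m
  let φ : MvPolynomial (Fin N) R →+* MvPolynomial (Fin N) E := MvPolynomial.map (algebraMap R E)
  have hφ : Function.Injective φ := MvPolynomial.map_injective _ (IsFractionRing.injective R E)
  have hminors : minors (rmat M' u' v' Xm) = (minors (genMat M u v m)).map φ := by
    rw [hmat1, minors, minors, Ideal.map_span, ← Set.range_comp]
    congr 2
    funext f
    exact (RingHom.map_det φ _).symm
  have hI' : minors (rmat M' u' v' Xm) ≠ ⊥ := by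
    rw [hminors]
    intro h
    exact hI ((Ideal.map_eq_bot_iff_of_injective hφ).1 h)
  -- the prime ideal over the field
  let PE : Ideal (MvPolynomial (Fin N) E) :=
    RingHom.ker (aeval x : MvPolynomial (Fin N) E →ₐ[E] K)
  have hPE : ∀ G : MvPolynomial (Fin N) E, G ∈ PE ↔ aeval x G = (0 : K) := fun G =>
    RingHom.mem_ker
  have hPEm : PE ∈ (minors (rmat M' u' v' Xm)).minimalPrimes := by
    refine ⟨⟨RingHom.ker_isPrime _, ?_⟩, ?_⟩
    · rw [hminors, Ideal.map_le_iff_le_comap]
      intro G hG
      rw [Ideal.mem_comap, hPE]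
      exact (hker G).1 (hP.1.2 hG)
    · rintro Q ⟨hQp, hQ⟩ hle
      have h1 : (Q.comap φ).IsPrime := Ideal.IsPrime.comap φ
      have h2 : minors (genMat M u v m) ≤ Q.comap φ := by
        rw [← Ideal.map_le_iff_le_comap, ← hminors]
        exact hQ
      have h3 : Q.comap φ ≤ P := by
        intro G hG
        rw [hker]
        exact (hPE _).1 (hle hG)
      have h4 := hP.2 ⟨h1, h2⟩ h3
      intro G hG
      let _ : Algebra (MvPolynomial (Fin N) R) (MvPolynomial (Fin N) E) := φ.toAlgebra
      have hloc : IsLocalization ((nonZeroDivisors R).map (C : R →+* MvPolynomial (Fin N) R))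
          (MvPolynomial (Fin N) E) := MvPolynomial.isLocalization (nonZeroDivisors R) E
      obtain ⟨⟨H, s⟩, hHs⟩ := IsLocalization.surj
        ((nonZeroDivisors R).map (C : R →+* MvPolynomial (Fin N) R)) G
      obtain ⟨r, hr, hrs⟩ := s.2
      have hHs' : G * φ (C r) = φ H := by
        rw [hrs]
        exact hHs
      have h5 : H ∈ P := by
        rw [hker]
        change aeval x (φ H) = 0
        rw [← hHs', map_mul, (hPE G).1 hG, zero_mul]
      have h6 : φ H ∈ Q := h4 h5
      rw [← hHs'] at h6
      rcases hQp.mem_or_mem h6 with h7 | h7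
      · exact h7
      · exfalso
        have hu : IsUnit (φ (C r)) := by
          change IsUnit (MvPolynomial.map (algebraMap R E) (C r))
          rw [MvPolynomial.map_C]
          have h3 : algebraMap R E r ≠ 0 := by
            rw [Ne, map_eq_zero_iff _ (IsFractionRing.injective R E)]
            exact nonZeroDivisors.ne_zero hr
          exact (IsUnit.mk0 _ h3).map C
        exact hQp.ne_top (Ideal.eq_top_of_isUnit_mem Q h7 hu)
  have hm0 : ∀ e, 0 < m e := fun e => Nat.pos_of_ne_zero fun h => hm e (by rw [h]; exact dvd_zero p)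
  obtain ⟨w, i₀, hwi, hft, htr⟩ := comp_data M' u' v' m hm0 hI' PE hPEm K x hgen hPE
  -- the generators
  obtain ⟨R₀, hR₀⟩ := (inferInstance : Algebra.FiniteType k R).1
  have hA : (IsScalarTower.toAlgHom k A K).range =
      Algebra.adjoin k (algebraMap E K '' ((R₀.image (algebraMap R E) : Finset E) : Set E) ∪
        Set.range x) := by
    have h0 : algebraMap E K '' ((R₀.image (algebraMap R E) : Finset E) : Set E) =
        algebraMap R K '' (R₀ : Set R) := by
      rw [Finset.coe_image, Set.image_image]
      simp only [hEK]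
    rw [h0]
    apply le_antisymm
    · rintro _ ⟨a, rfl⟩
      change algebraMap A K a ∈ _
      obtain ⟨G, rfl⟩ := Ideal.Quotient.mk_surjective a
      set B := Algebra.adjoin k (algebraMap R K '' (R₀ : Set R) ∪ Set.range x) with hB
      have hRB : ∀ r : R, algebraMap R K r ∈ B := by
        intro r
        have h1 : r ∈ Algebra.adjoin k (R₀ : Set R) := by rw [hR₀]; exact Algebra.mem_top
        have h2 : (IsScalarTower.toAlgHom k R K) r ∈
            (Algebra.adjoin k (R₀ : Set R)).map (IsScalarTower.toAlgHom k R K) := ⟨r, h1, rfl⟩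
        rw [AlgHom.map_adjoin] at h2
        exact Algebra.adjoin_mono Set.subset_union_left h2
      induction G using MvPolynomial.induction_on with
      | C r =>
        have : algebraMap A K (Ideal.Quotient.mk P (C r)) = algebraMap R K r := rfl
        rw [this]
        exact hRB r
      | add G H hG hH =>
        rw [map_add, map_add]
        exact B.add_mem hG hH
      | mul_X G e hG =>
        rw [map_mul, map_mul]
        exact B.mul_mem hG (Algebra.subset_adjoin (Or.inr ⟨e, rfl⟩))
    · rw [Algebra.adjoin_le_iff]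
      rintro _ (⟨r, -, rfl⟩ | ⟨e, rfl⟩)
      · exact ⟨algebraMap R A r, rfl⟩
      · exact ⟨Ideal.Quotient.mk P (X e), rfl⟩
  obtain ⟨T, I, i1, i2, hLM⟩ := gen_LM p k E K A hE v' x m hm hgen w i₀ hwi hft htr _ hA
  exact ⟨K, inferInstance, inferInstance, inferInstance, inferInstance, inferInstance, T, I, i1, i2,
    hLM⟩

end Pool.Agent.U186.RD
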