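import Pool.Agent.U186.RankOneLin
import Pool.Agent.W558.T3.PLF

set_option autoImplicit false

universe u

open AlgebraicGeometry CategoryTheory Pool.Agent.W558

namespace Pool.Agent.U186.RO

/-- Affine varieties whose function field is purely transcendental with generators `t`. -/
theorem ro_zero (p : ℕ) [Fact p.Prime] (k E K A : Type u) [Field k] [PerfectField k] [CharP k p]
    [Field E] [Algebra k E] (hE : (Algebra.trdeg k E = 2 ∧ HasModel k E) ∨ HasLogModels k E)
    [Field K] [Algebra E K] [Algebra k K] [IsScalarTower k E K] {N : ℕ} (t : Fin N → K)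
    (hgen : IntermediateField.adjoin E (Set.range t) = ⊤) (e₀ : Fin N) (he₀ : t e₀ = 0)
    (htr : Algebra.trdeg E K + 1 = (N : Cardinal.{u}))
    [CommRing A] [IsDomain A] [Algebra k A] [Algebra A K] [IsScalarTower k A K]
    [IsFractionRing A K] (R : Finset E)
    (hA : (IsScalarTower.toAlgHom k A K).range =
      Algebra.adjoin k (algebraMap E K '' (R : Set E) ∪ Set.range t)) :
    IsResolvableVariety (X := Spec (CommRingCat.of A))
      (Spec.map (CommRingCat.ofHom (algebraMap k A))) := by
  classical
  let V : Fin N → Submodule E K := fun e => Submodule.span E {t e}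
  have hfd : ∀ s, FiniteDimensional E (V s) := fun s =>
    FiniteDimensional.span_of_finite E (Set.finite_singleton _)
  have hgen' : IntermediateField.adjoin E (⋃ s, (V s : Set K)) = ⊤ := by
    rw [eq_top_iff, ← hgen]
    refine IntermediateField.adjoin.mono _ _ _ ?_
    rintro _ ⟨e, rfl⟩
    exact Set.mem_iUnion.2 ⟨e, Submodule.mem_span_singleton_self _⟩
  -- the transcendence degree is at most `N - 1`, and is at most the sum of the dimensions
  have hle : Algebra.trdeg E K ≤ ((∑ s, Module.finrank E (V s) : ℕ) : Cardinal.{u}) := by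
    let T : Set K := Set.range fun e : {e : Fin N // t e ≠ 0} => t e
    have hT : IntermediateField.adjoin E T = ⊤ := by
      rw [eq_top_iff, ← hgen, IntermediateField.adjoin_le_iff]
      rintro _ ⟨e, rfl⟩
      by_cases h : t e = 0
      · rw [h]
        exact zero_mem _
      · exact IntermediateField.subset_adjoin _ _ ⟨⟨e, h⟩, rfl⟩
    have halg : Algebra.IsAlgebraic (Algebra.adjoin E T) K := by
      rw [← IntermediateField.isAlgebraic_adjoin_iff_top]
      exact isAlgebraic_of_eq_top hT
    have h1 := Algebra.IsAlgebraic.trdeg_le_cardinalMk (R := E) (A := K) (s := T)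
    have h2 : Cardinal.mk T ≤ (Fintype.card {e : Fin N // t e ≠ 0} : Cardinal.{u}) := by
      have h3 := Cardinal.mk_range_le_lift (f := fun e : {e : Fin N // t e ≠ 0} => t e)
      rw [Cardinal.mk_fintype, Cardinal.lift_natCast] at h3
      simpa using h3
    have h3 : Fintype.card {e : Fin N // t e ≠ 0} = ∑ s, Module.finrank E (V s) := by
      rw [Fintype.card_subtype, Finset.card_filter]
      refine Finset.sum_congr rfl fun e _ => ?_
      split_ifs with h
      · exact (finrank_span_singleton h).symm
      · rw [not_not] at h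
        change 0 = Module.finrank E (Submodule.span E {t e})
        rw [h, Submodule.span_zero_singleton, finrank_bot]
    rw [← h3]
    exact h1.trans h2
  obtain ⟨τ, hτ⟩ : ∃ τ : ℕ, Algebra.trdeg E K = τ :=
    Cardinal.lt_aleph0.1 (hle.trans_lt Cardinal.natCast_lt_aleph0)
  have htN : τ + 1 = N := by
    rw [hτ] at htr
    exact_mod_cast htr
  have hle' : τ ≤ ∑ s, Module.finrank E (V s) := by
    rw [hτ] at hle
    exact_mod_cast hle
  have hsum : ∑ s, Module.finrank E (V s) + 1 ≤ N := by
    have h1 : ∀ e, Module.finrank E (V e) ≤ 1 := fun e => by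
      refine (finrank_span_le_card ({t e} : Set K)).trans ?_
      simp
    have h2 : Module.finrank E (V e₀) = 0 := by
      change Module.finrank E (Submodule.span E {t e₀}) = 0
      rw [he₀]
      simp
    rw [← Finset.add_sum_erase Finset.univ _ (Finset.mem_univ e₀), h2, zero_add]
    calc _ ≤ ∑ e ∈ Finset.univ.erase e₀, 1 + 1 :=
          Nat.add_le_add_right (Finset.sum_le_sum fun e _ => h1 e) 1
      _ = N := by
        rw [Finset.sum_const, Finset.card_erase_of_mem (Finset.mem_univ e₀), Finset.card_univ,
          Fintype.card_fin]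
        have := e₀.pos
        simp only [smul_eq_mul, mul_one]
        omega
  -- the generators
  let T : Finset K := R.image (algebraMap E K) ∪ Finset.univ.image t
  let S : Finset Kˣ := T.preimage Units.val (Units.val_injective.injOn)
  have hTset : (T : Set K) = algebraMap E K '' (R : Set E) ∪ Set.range t := by
    simp [T]
  have hS : ∀ y ∈ S, y ∈ Subgroup.closure {y : Kˣ | (∃ b, algebraMap E K b = y) ∨
      (∃ s, (y : K) ∈ V s) ∨ ∃ l : Fin 0, (fun _ : Fin 0 => (0 : K)) l = y} := by
    intro y hy
    have hy' : (y : K) ∈ (T : Set K) := Finset.mem_preimage.1 hy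
    rw [hTset] at hy'
    rcases hy' with ⟨a, -, ha⟩ | ⟨e, he⟩
    · exact Subgroup.subset_closure (Or.inl ⟨a, ha⟩)
    · refine Subgroup.subset_closure (Or.inr (Or.inl ⟨e, ?_⟩))
      rw [← he]
      exact Submodule.mem_span_singleton_self _
  have hA' : (IsScalarTower.toAlgHom k A K).range =
      Algebra.adjoin k (Units.val '' (S : Set Kˣ)) := by
    rw [hA, ← hTset]
    apply le_antisymm
    · refine Algebra.adjoin_le fun y hy => ?_
      by_cases h0 : y = 0
      · rw [h0]
        exact Subalgebra.zero_mem _
      · exact Algebra.subset_adjoin ⟨Units.mk0 y h0, Finset.mem_preimage.2 hy, rfl⟩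
    · refine Algebra.adjoin_mono ?_
      rintro _ ⟨y, hy, rfl⟩
      exact Finset.mem_preimage.1 hy
  refine plf_main p k E K A hE N V hgen' 0 (fun _ => Fin 2) (fun _ => 0)
    (fun _ _ => 1) (fun _ _ => one_ne_zero) (fun _ _ _ => 0) (fun _ _ _ _ => 1)
    (fun _ _ _ t => t.elim0) (fun _ _ _ _ => one_ne_zero)
    (fun _ _ _ => 0) (fun _ => 0) (fun j => j.elim0) (fun j => j.elim0)
    (fun _ _ => 0) (fun j => j.elim0) ?_ ?_ S hS hA'
  · have : IsEmpty ((j : Fin 0) × {i : Fin 2 // i ≠ 0}) := ⟨fun q => q.1.elim0⟩
    exact linearIndependent_empty_type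
  · have h1 : ∑ s, Module.finrank E (V s) = τ := by omega
    rw [h1, hτ]
    simp

/-- The main theorem on the level of function fields. -/
theorem ro_main (p : ℕ) [Fact p.Prime] (k E K A : Type u) [Field k] [PerfectField k] [CharP k p]
    [Field E] [Algebra k E] (hE : (Algebra.trdeg k E = 2 ∧ HasModel k E) ∨ HasLogModels k E)
    [Field K] [Algebra E K] [Algebra k K] [IsScalarTower k E K]
    {n N : ℕ} (M : Matrix (Fin n) (Fin n) E) (u v : Fin N → Fin n → E) (t : Fin N → K)
    (m : Fin N → ℕ) (hm : ∀ e, ¬ p ∣ m e)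
    (hgen : IntermediateField.adjoin E (Set.range t) = ⊤)
    (hdet : (mat M u v fun e => t e ^ m e).det = 0)
    (hΨ : (mat M u v (fun e => (MvPolynomial.X e : MvPolynomial (Fin N) E) ^ m e)).det ≠ 0)
    (htr : Algebra.trdeg E K + 1 = (N : Cardinal.{u}))
    [CommRing A] [IsDomain A] [Algebra k A] [Algebra A K] [IsScalarTower k A K]
    [IsFractionRing A K] (R : Finset E)
    (hA : (IsScalarTower.toAlgHom k A K).range =
      Algebra.adjoin k (algebraMap E K '' (R : Set E) ∪ Set.range t)) :
    IsResolvableVariety (X := Spec (CommRingCat.of A))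
      (Spec.map (CommRingCat.ofHom (algebraMap k A))) := by
  classical
  by_cases ht0 : ∃ e, t e = 0
  · obtain ⟨e₀, he₀⟩ := ht0
    exact ro_zero p k E K A hE t hgen e₀ he₀ htr R hA
  push Not at ht0
  set x : Fin N → K := fun e => t e ^ m e with hx
  have hx0 : ∀ e, x e ≠ 0 := fun e => pow_ne_zero _ (ht0 e)
  -- the kernel vector
  obtain ⟨w', hw'0, hw'⟩ := Matrix.exists_mulVec_eq_zero_iff.2 hdet
  obtain ⟨i₀, hi₀⟩ : ∃ i, w' i ≠ 0 := by
    by_contra h
    push Not at h
    exact hw'0 (funext h)
  set w : Fin n → K := (w' i₀)⁻¹ • w' with hwdef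
  have hw : (mat M u v x).mulVec w = 0 := by
    rw [hwdef, Matrix.mulVec_smul, hw', smul_zero]
  have hwi : w i₀ = 1 := by
    rw [hwdef, Pi.smul_apply, smul_eq_mul, inv_mul_cancel₀ hi₀]
  let S₀ := {e : Fin N // ell v w e ≠ 0}
  -- the subspaces
  let V₀ : Submodule E K := Submodule.span E (Set.range (Sum.elim w
      fun e : {e : Fin N // ell v w e ≠ 0} => x e * ell v w e))
  have hwV : ∀ j, w j ∈ V₀ := fun j => Submodule.subset_span ⟨Sum.inl j, rfl⟩
  have hell : ∀ e, ell v w e ∈ V₀ := by
    intro e
    refine Submodule.sum_mem _ fun j _ => ?_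
    rw [← Algebra.smul_def]
    exact Submodule.smul_mem _ _ (hwV j)
  have hyV : ∀ e, ell v w e ≠ 0 → x e * ell v w e ∈ V₀ := fun e h =>
    Submodule.subset_span ⟨Sum.inr ⟨e, h⟩, rfl⟩
  have h1V : (1 : K) ∈ V₀ := by
    rw [← hwi]
    exact hwV i₀
  -- a family of subspaces with `V₀` in the first place
  have hfam : ∀ z : Fin N → K, ∃ V : Fin (1 + N) → Submodule E K,
      V ⟨0, by omega⟩ = V₀ ∧ (∀ e : Fin N, V ⟨1 + e, by omega⟩ = Submodule.span E {z e}) ∧
      (∀ s, FiniteDimensional E (V s)) ∧
      ∑ s, Module.finrank E (V s) = Module.finrank E V₀ +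
        ∑ e, Module.finrank E (Submodule.span E {z e}) := by
    intro z
    let V : Fin (1 + N) → Submodule E K := Fin.addCases (fun _ => V₀) fun e => Submodule.span E {z e}
    have hV1 : ∀ e : Fin N, V ⟨1 + e, by omega⟩ = Submodule.span E {z e} := by
      intro e
      exact Fin.addCases_right (motive := fun _ => Submodule E K) e
    have hV0 : V ⟨0, by omega⟩ = V₀ := by
      exact Fin.addCases_left (motive := fun _ => Submodule E K) (0 : Fin 1)
    refine ⟨V, hV0, hV1, ?_, ?_⟩
    · intro s
      by_cases h0 : (s : ℕ) = 0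
      · have : s = ⟨0, by omega⟩ := Fin.ext h0
        rw [this, hV0]
        exact FiniteDimensional.span_of_finite E (Set.finite_range _)
      · have : s = ⟨1 + ((⟨s - 1, by omega⟩ : Fin N) : ℕ), by simp only; omega⟩ := Fin.ext (by
          simp only
          omega)
        rw [this, hV1]
        exact FiniteDimensional.span_of_finite E (Set.finite_singleton _)
    · rw [Fin.sum_univ_add, Fin.sum_univ_one]
      congr 1
      refine Finset.sum_congr rfl fun e _ => ?_
      have : V (Fin.natAdd 1 e) = Submodule.span E {z e} := hV1 e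
      rw [this]
  -- the dimensions
  have hdw : Module.finrank E (relu M u v w) ≤ Module.finrank E (relw (E := E) w) := by
    let F := FractionRing (MvPolynomial (Fin N) E)
    let X : Fin N → F := fun e => algebraMap (MvPolynomial (Fin N) E) F (MvPolynomial.X e ^ m e)
    refine finrank_relu_le F M u v w X ?_
    have h1 : mat M u v X = (mat M u v
        (fun e => (MvPolynomial.X e : MvPolynomial (Fin N) E) ^ m e)).map
        (algebraMap (MvPolynomial (Fin N) E) F) := by
      ext i j
      simp only [mat, Matrix.of_apply, Matrix.map_apply, map_sum, map_mul, map_add, X]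
      simp only [IsScalarTower.algebraMap_apply E (MvPolynomial (Fin N) E) F]
    rw [h1, ← RingHom.mapMatrix_apply, ← RingHom.map_det]
    exact (map_ne_zero_iff _ (IsFractionRing.injective (MvPolynomial (Fin N) E) F)).2 hΨ
  have hcc : ∀ i1 i2 : Fintype S₀, @Fintype.card _ i1 = @Fintype.card _ i2 := fun i1 i2 =>
    @Fintype.card_congr _ _ i1 i2 (Equiv.refl _)
  have hdy : Module.finrank E V₀ ≤ Fintype.card S₀ :=
    (finrank_V M u v x w hw hdw).trans (le_of_eq (hcc _ _))
  have hdy' : Module.finrank E V₀ = Fintype.card S₀ := by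
    let z : Fin N → K := fun e => if ell v w e = 0 then x e else 0
    obtain ⟨V, hV0, hV1, hfd, hVs⟩ := hfam z
    have halg : Algebra.IsAlgebraic (IntermediateField.adjoin E (⋃ s, (V s : Set K))) K := by
      set L := IntermediateField.adjoin E (⋃ s, (V s : Set K)) with hL
      have hsub : ∀ s, ∀ y ∈ V s, y ∈ L := fun s y hy =>
        IntermediateField.subset_adjoin _ _ (Set.mem_iUnion.2 ⟨s, hy⟩)
      have hxL : ∀ e, x e ∈ L := by
        intro e
        by_cases h : ell v w e = 0
        · refine hsub ⟨1 + e, by omega⟩ _ ?_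
          rw [hV1]
          have : z e = x e := if_pos h
          rw [this]
          exact Submodule.mem_span_singleton_self _
        · have h2 : x e = (x e * ell v w e) * (ell v w e)⁻¹ := by field_simp
          rw [h2]
          refine mul_mem (hsub ⟨0, by omega⟩ _ ?_) (inv_mem (hsub ⟨0, by omega⟩ _ ?_))
          · rw [hV0]
            exact hyV e h
          · rw [hV0]
            exact hell e
      have h1 : ∀ e, IsAlgebraic L (t e) := by
        intro e
        have hme : 0 < m e := Nat.pos_of_ne_zero fun h => hm e (by rw [h]; exact dvd_zero p)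
        refine IsAlgebraic.of_pow hme ?_
        exact isAlgebraic_algebraMap (⟨x e, hxL e⟩ : L)
      have h2 : ∀ y : K, IsAlgebraic L y := by
        intro y
        have hy : y ∈ IntermediateField.adjoin E (Set.range t) := by rw [hgen]; trivial
        induction hy using IntermediateField.adjoin_induction with
        | mem y hy =>
          obtain ⟨e, rfl⟩ := hy
          exact h1 e
        | algebraMap c => exact isAlgebraic_algebraMap (⟨_, L.algebraMap_mem c⟩ : L)
        | add y z _ _ hy hz => exact hy.add hz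
        | inv y _ hy => exact hy.inv
        | mul y z _ _ hy hz => exact hy.mul hz
      exact ⟨h2⟩
    have hlt := trdeg_lt_sum V halg ⟨0, by omega⟩ (by rw [hV0]; exact h1V)
    obtain ⟨τ, hτ⟩ : ∃ τ : ℕ, Algebra.trdeg E K = τ :=
      Cardinal.lt_aleph0.1 (hlt.trans Cardinal.natCast_lt_aleph0)
    have htN : τ + 1 = N := by
      rw [hτ] at htr
      exact_mod_cast htr
    have hlt' : τ < ∑ s, Module.finrank E (V s) := by
      rw [hτ] at hlt
      exact_mod_cast hlt
    have hcard : Fintype.card S₀ +
        ∑ e, Module.finrank E (Submodule.span E {z e}) ≤ N := by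
      have h1 : ∀ e, Module.finrank E (Submodule.span E {z e}) ≤
          if ell v w e ≠ 0 then 0 else 1 := by
        intro e
        split_ifs with h
        · have : z e = 0 := if_neg h
          rw [this]
          simp
        · refine (finrank_span_le_card ({z e} : Set K)).trans ?_
          simp
      have h2 : Fintype.card S₀ = ∑ e, if ell v w e ≠ 0 then 1 else 0 := by
        rw [Fintype.card_subtype, Finset.card_filter]
      rw [h2, ← Finset.sum_add_distrib]
      calc _ ≤ ∑ e : Fin N, 1 := by
            refine Finset.sum_le_sum fun e _ => ?_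
            have := h1 e
            split_ifs at this ⊢ <;> omega
        _ = N := by simp
    omega
  -- the final family
  obtain ⟨V, hV0, hV1, hfd, hVs⟩ := hfam t
  have hVs' : ∑ s, Module.finrank E (V s) = Fintype.card S₀ + N := by
    rw [hVs, hdy']
    congr 1
    have : ∀ e, Module.finrank E (Submodule.span E {t e}) = 1 := fun e =>
      finrank_span_singleton (ht0 e)
    simp only [this]
    simp
  let s₀ : Fin (1 + N) := ⟨0, by omega⟩
  let se : Fin N → Fin (1 + N) := fun e => ⟨1 + e, by omega⟩
  have hse0 : ∀ e, se e ≠ s₀ := by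
    intro e h
    have := congrArg Fin.val h
    change 1 + (e : ℕ) = 0 at this
    omega
  have hsei : Function.Injective se := by
    intro e e' h
    have := congrArg Fin.val h
    change 1 + (e : ℕ) = 1 + (e' : ℕ) at this
    exact Fin.ext (by omega)
  have hgen' : IntermediateField.adjoin E (⋃ s, (V s : Set K)) = ⊤ := by
    rw [eq_top_iff, ← hgen]
    refine IntermediateField.adjoin.mono _ _ _ ?_
    rintro _ ⟨e, rfl⟩
    refine Set.mem_iUnion.2 ⟨se e, ?_⟩
    rw [hV1 e]
    exact Submodule.mem_span_singleton_self _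
  -- the generators
  let T : Finset K := R.image (algebraMap E K) ∪ Finset.univ.image t
  let S : Finset Kˣ := T.preimage Units.val (Units.val_injective.injOn)
  have hTset : (T : Set K) = algebraMap E K '' (R : Set E) ∪ Set.range t := by
    simp [T]
  let c₀ := Fintype.card S₀
  let σ : Fin c₀ ≃ S₀ := (Fintype.equivFin S₀).symm
  have hS : ∀ y ∈ S, y ∈ Subgroup.closure {y : Kˣ | (∃ b, algebraMap E K b = y) ∨
      (∃ s, (y : K) ∈ V s) ∨ ∃ l : Fin (c₀ + 1), (fun _ : Fin (c₀ + 1) => (0 : K)) l = y} := by
    intro y hy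
    have hy' : (y : K) ∈ (T : Set K) := Finset.mem_preimage.1 hy
    rw [hTset] at hy'
    rcases hy' with ⟨a, -, ha⟩ | ⟨e, he⟩
    · exact Subgroup.subset_closure (Or.inl ⟨a, ha⟩)
    · refine Subgroup.subset_closure (Or.inr (Or.inl ⟨se e, ?_⟩))
      rw [hV1 e, ← he]
      exact Submodule.mem_span_singleton_self _
  have hA' : (IsScalarTower.toAlgHom k A K).range =
      Algebra.adjoin k (Units.val '' (S : Set Kˣ)) := by
    rw [hA, ← hTset]
    apply le_antisymm
    · refine Algebra.adjoin_le fun y hy => ?_
      by_cases h0 : y = 0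
      · rw [h0]
        exact Subalgebra.zero_mem _
      · exact Algebra.subset_adjoin ⟨Units.mk0 y h0, Finset.mem_preimage.2 hy, rfl⟩
    · refine Algebra.adjoin_mono ?_
      rintro _ ⟨y, hy, rfl⟩
      exact Finset.mem_preimage.1 hy
  -- the relations `w i₀ = 1` and `t e ^ m e * ell e = x e * ell e`
  let d : Fin (c₀ + 1) → Fin 2 → Fin (1 + N) → ℕ := Fin.cons
    (fun i s => if i = 0 ∧ s = s₀ then 1 else 0)
    (fun j i s => if s = s₀ then 1 else if i = 0 ∧ s = se (σ j).1 then m (σ j).1 else 0)
  let g : Fin (c₀ + 1) → Fin 2 → Fin (1 + N) → K := Fin.cons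
    (fun _ _ => 1)
    (fun j i s => if s = s₀ then (if i = 0 then ell v w (σ j).1 else
      x (σ j).1 * ell v w (σ j).1) else t (σ j).1)
  have hd0 : ∀ i s, d 0 i s = if i = 0 ∧ s = s₀ then 1 else 0 := fun i s => rfl
  have hdj : ∀ j i s, d (Fin.succ j) i s = if s = s₀ then 1 else
      if i = 0 ∧ s = se (σ j).1 then m (σ j).1 else 0 := fun j i s => rfl
  have hg0 : ∀ i s, g 0 i s = 1 := fun i s => rfl
  have hgj : ∀ j i s, g (Fin.succ j) i s = if s = s₀ then (if i = 0 then ell v w (σ j).1 else
      x (σ j).1 * ell v w (σ j).1) else t (σ j).1 := fun j i s => rfl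
  refine plf_main p k E K A hE (1 + N) V hgen' (c₀ + 1) (fun _ => Fin 2) (fun _ => 0)
    (fun _ i => if i = 0 then 1 else -1) ?_ d (fun j i s _ => g j i s) ?_ ?_
    (fun _ _ _ => 0) (fun _ => 0) ?_ ?_
    (fun j s => (d j 0 s : ZMod p)) ?_ ?_ ?_ S hS hA'
  · intro j i
    split_ifs
    · exact one_ne_zero
    · exact neg_ne_zero.2 one_ne_zero
  · intro j i s a
    have hpos : 0 < d j i s := a.pos
    induction j using Fin.cases with
    | zero =>
      rw [hd0] at hpos
      have h1 : s = s₀ := by
        by_contra hne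
        rw [if_neg fun h => hne h.2] at hpos
        exact lt_irrefl _ hpos
      rw [hg0, h1, hV0]
      exact h1V
    | succ j =>
      rw [hgj]
      rw [hdj] at hpos
      split_ifs with h1 h2
      · rw [h1, hV0]
        exact hell _
      · rw [h1, hV0]
        exact hyV _ (σ j).2
      · rw [if_neg h1] at hpos
        have h3 : s = se (σ j).1 := by
          by_contra hne
          rw [if_neg fun h => hne h.2] at hpos
          exact lt_irrefl _ hpos
        rw [h3, hV1 (σ j).1]
        exact Submodule.mem_span_singleton_self _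
  · intro j i s a
    induction j using Fin.cases with
    | zero => rw [hg0]; exact one_ne_zero
    | succ j =>
      rw [hgj]
      split_ifs
      · exact (σ j).2
      · exact mul_ne_zero (hx0 _) (σ j).2
      · exact ht0 _
  · intro j i l h
    exact absurd rfl h
  · intro j
    simp only [Finset.prod_const, Finset.card_univ, Fintype.card_fin, pow_zero, one_pow, mul_one,
      Fin.sum_univ_two]
    simp only [if_true, if_neg (by decide : ¬ ((1 : Fin 2) = 0)), map_one, map_neg, one_mul,
      neg_one_mul]
    induction j using Fin.cases with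
    | zero =>
      simp only [hg0, one_pow, Finset.prod_const_one]
      ring
    | succ j =>
      have h0 : ∏ s, g (Fin.succ j) 0 s ^ d (Fin.succ j) 0 s =
          ell v w (σ j).1 * t (σ j).1 ^ m (σ j).1 := by
        rw [← Finset.mul_prod_erase Finset.univ _ (Finset.mem_univ s₀)]
        rw [← Finset.mul_prod_erase (Finset.univ.erase s₀) _
          (Finset.mem_erase.2 ⟨hse0 (σ j).1, Finset.mem_univ _⟩)]
        rw [Finset.prod_eq_one]
        · rw [hgj, hgj, hdj, hdj, if_pos rfl, if_pos rfl, if_pos rfl, if_neg (hse0 _),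
            if_neg (hse0 _), if_pos ⟨rfl, rfl⟩, pow_one, mul_one]
        · intro s hs
          have h1 := Finset.mem_erase.1 hs
          have h2 := (Finset.mem_erase.1 h1.2).1
          rw [hdj, if_neg h2, if_neg fun h => h1.1 h.2, pow_zero]
      have h1 : ∏ s, g (Fin.succ j) 1 s ^ d (Fin.succ j) 1 s = x (σ j).1 * ell v w (σ j).1 := by
        rw [← Finset.mul_prod_erase Finset.univ _ (Finset.mem_univ s₀)]
        rw [Finset.prod_eq_one]
        · rw [hgj, hdj, if_pos rfl, if_pos rfl, if_neg (by decide : ¬ ((1 : Fin 2) = 0)), pow_one,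
            mul_one]
        · intro s hs
          have h2 := (Finset.mem_erase.1 hs).1
          rw [hdj, if_neg h2, if_neg fun h => absurd h.1 (by decide), pow_zero]
      rw [h0, h1]
      change 0 = ell v w (σ j).1 * t (σ j).1 ^ m (σ j).1 +
        -(t (σ j).1 ^ m (σ j).1 * ell v w (σ j).1)
      ring
  · intro j
    funext s
    simp [Pool.Agent.W418.LCI.dg]
  · let τ : ((j : Fin (c₀ + 1)) × {i : Fin 2 // i ≠ 0}) → Fin (1 + N) := fun q =>
      Fin.cases s₀ (fun j => se (σ j).1) q.1
    have hτ0 : ∀ i, τ ⟨0, i⟩ = s₀ := fun i => rfl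
    have hτs : ∀ j i, τ ⟨Fin.succ j, i⟩ = se (σ j).1 := fun j i => rfl
    have h2 : ∀ i i' : {i : Fin 2 // i ≠ 0}, i = i' := by
      intro i i'
      apply Subtype.ext
      have h1 := i.2
      have h2 := i'.2
      omega
    have h1' : ∀ i : {i : Fin 2 // i ≠ 0}, i.1 = 1 := by
      intro i
      have h1 := i.2
      omega
    have hτ : Function.Injective τ := by
      rintro ⟨j, i⟩ ⟨j', i'⟩ h
      obtain rfl := h2 i i'
      induction j using Fin.cases with
      | zero =>
        induction j' using Fin.cases with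
        | zero => rfl
        | succ j' => exact absurd h.symm (hse0 _)
      | succ j =>
        induction j' using Fin.cases with
        | zero => exact absurd h (hse0 _)
        | succ j' =>
          rw [hτs, hτs] at h
          have := σ.injective (Subtype.ext (hsei h))
          rw [this]
    let cc : ((j : Fin (c₀ + 1)) × {i : Fin 2 // i ≠ 0}) → ZMod p := fun q =>
      Fin.cases (-1) (fun j => -(m (σ j).1 : ZMod p)) q.1
    have hcc0 : ∀ i, cc ⟨0, i⟩ = -1 := fun i => rfl
    have hccs : ∀ j i, cc ⟨Fin.succ j, i⟩ = -(m (σ j).1 : ZMod p) := fun j i => rfl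
    have hcc : ∀ q, cc q ≠ 0 := by
      rintro ⟨j, i⟩
      induction j using Fin.cases with
      | zero => rw [hcc0]; exact neg_ne_zero.2 one_ne_zero
      | succ j =>
        rw [hccs]
        refine neg_ne_zero.2 ?_
        rw [Ne, ZMod.natCast_eq_zero_iff]
        exact hm _
    have hli := (((Pi.basisFun (ZMod p) (Fin (1 + N))).linearIndependent.comp τ hτ).units_smul
      (fun q => Units.mk0 (cc q) (hcc q)))
    convert hli using 1
    funext q
    obtain ⟨j, i⟩ := q
    obtain ⟨i, hi⟩ := i
    have hi1 : i = 1 := h1' ⟨i, hi⟩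
    subst hi1
    funext s
    have hR : ∀ (c : ZMod p) (hc : c ≠ 0) (a : Fin (1 + N)),
        (Units.mk0 c hc • Pi.basisFun (ZMod p) (Fin (1 + N)) a) s = if s = a then c else 0 := by
      intro c hc a
      rw [Units.smul_mk0, Pi.smul_apply, Pi.basisFun_apply, Pi.single_apply, smul_eq_mul, mul_ite,
        mul_one, mul_zero]
    change ((d j 1 s : ZMod p) + ∑ l : Fin (c₀ + 1), ((0 : ℕ) : ZMod p) * (d l 0 s : ZMod p)) -
      (d j 0 s : ZMod p) = (Units.mk0 (cc ⟨j, ⟨1, hi⟩⟩) (hcc _) •
        Pi.basisFun (ZMod p) (Fin (1 + N)) (τ ⟨j, ⟨1, hi⟩⟩)) s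
    rw [hR, Nat.cast_zero]
    simp only [zero_mul, Finset.sum_const_zero, add_zero]
    induction j using Fin.cases with
    | zero =>
      rw [hd0, hd0, hcc0, hτ0]
      by_cases hs : s = s₀
      · simp [hs]
      · simp [hs]
    | succ j =>
      rw [hdj, hdj, hccs, hτs]
      by_cases hs : s = s₀
      · have hs' : ¬ s = se (σ j).1 := fun h => hse0 _ (h.symm.trans hs)
        simp [hs, (hse0 (σ j).1).symm]
      · by_cases hs' : s = se (σ j).1
        · simp [hs', hse0]
        · simp [hs, hs']
  · obtain ⟨τ, hτ⟩ : ∃ τ : ℕ, Algebra.trdeg E K = τ := by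
      refine Cardinal.lt_aleph0.1 (lt_of_le_of_lt ?_ (Cardinal.natCast_lt_aleph0 (n := N)))
      rw [← htr]
      exact le_self_add
    have htN : τ + 1 = N := by
      rw [hτ] at htr
      exact_mod_cast htr
    have hcard : Nat.card {j : Fin (c₀ + 1) // (0 : K) = 0} = c₀ + 1 := by
      simp
    rw [hVs', hτ, hcard]
    have : τ + (c₀ + 1) = Fintype.card S₀ + N := by
      change τ + (c₀ + 1) = c₀ + N
      omega
    exact_mod_cast this

end Pool.Agent.U186.RO
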